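import Pool.Agent.P.MP_5af56b_co.Cert1
import Pool.Agent.P.MP_5af56b_co.Cert2
import Pool.Agent.P.MP_5af56b_co.Cert3
import Pool.Agent.P.MP_5af56b_co.Cert4
import Pool.Agent.P.MP_5af56b_co.Cert5
import Pool.Agent.P.MP_5af56b_co.Cert6
import Pool.Agent.P.MP_5af56b_co.Cert7
import Pool.Agent.P.MP_5af56b_co.Cert8
import Pool.Agent.P.MP_5af56b_co.Cert9
import Pool.Agent.P.MP_5af56b_co.Cert10
import Pool.Agent.P.MP_5af56b_co.Cert11
import Pool.Agent.P.MP_5af56b_co.Cert12

namespace Pool.Agent.P.MP_5af56b_co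

theorem pieces_ok : ∀ (k : ℕ) (A : List (ℕ × ℕ)), A ∈ pieces k → (2 ≤ k ∧ k ≤ 4) ∧ Piece k A
  | 0, _, h => by simp [pieces] at h
  | 1, _, h => by simp [pieces] at h
  | 2, A, h => by
    simp only [pieces, List.mem_cons, List.not_mem_nil, or_false] at h
    refine ⟨by omega, ?_⟩
    rcases h with rfl | rfl | rfl | rfl | rfl | rfl | rfl | rfl | rfl | rfl | rfl | rfl | rfl | rfl | rfl | rfl | rfl | rfl | rfl | rfl | rfl | rfl | rfl | rfl | rfl | rfl
    · exact gp2_1
    · exact gp2_2
    · exact gp2_3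
    · exact gp2_4
    · exact gp2_5
    · exact gp2_6
    · exact gp2_7
    · exact gp2_8
    · exact gp2_9
    · exact gp2_10
    · exact gp2_11
    · exact gp2_12
    · exact gp2_13
    · exact gp2_14
    · exact gp2_15
    · exact gp2_16
    · exact gp2_17
    · exact gp2_18
    · exact gp2_19
    · exact gp2_20
    · exact gp2_21
    · exact gp2_22
    · exact gp2_23
    · exact gp2_24
    · exact gp2_25
    · exact gp2_26
  | 3, A, h => by
    simp only [pieces, List.mem_cons, List.not_mem_nil, or_false] at h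
    refine ⟨by omega, ?_⟩
    rcases h with rfl | rfl | rfl | rfl | rfl | rfl | rfl | rfl | rfl | rfl | rfl | rfl | rfl | rfl | rfl | rfl | rfl
    · exact gp3_1
    · exact gp3_2
    · exact gp3_3
    · exact gp3_4
    · exact gp3_5
    · exact gp3_6
    · exact gp3_7
    · exact gp3_8
    · exact gp3_9
    · exact gp3_10
    · exact gp3_11
    · exact gp3_12
    · exact gp3_13
    · exact gp3_14
    · exact gp3_15
    · exact gp3_16
    · exact gp3_17
  | 4, A, h => by
    simp only [pieces, List.mem_cons, List.not_mem_nil, or_false] at h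
    refine ⟨by omega, ?_⟩
    rcases h with rfl | rfl | rfl | rfl
    · exact gp4_1
    · exact gp4_2
    · exact gp4_3
    · exact gp4_4
  | _ + 5, _, h => by simp [pieces] at h

end Pool.Agent.P.MP_5af56b_co
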