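import Pool.Agent.P.MP_5af56b_co.Simple

namespace Pool.Agent.P.MP_5af56b_co

open Relation

def Rd (G : SG) : Prop := ∃ n, Red n G

theorem Rd.minor {G H : SG} (h : Rd G) (hm : SMinor H G) : Rd H :=
  let ⟨n, hn⟩ := h; ⟨n, red_minor hn H hm⟩

def bit (M p q : ℕ) : Prop := M.testBit (64 * p + q) = true

def put (X a : ℕ) : ℕ := Nat.shiftLeft X (Nat.mul 64 a)
def row (M v : ℕ) : ℕ := Nat.land (Nat.shiftRight M (Nat.mul 64 v)) 18446744073709551615
def rows (X a b c : ℕ) : ℕ := Nat.lor (put X a) (Nat.lor (put X b) (put X c))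
def one (a : ℕ) : ℕ := Nat.shiftLeft 1 a
def tm (a b c : ℕ) : ℕ := Nat.lor (one a) (Nat.lor (one b) (one c))
def mn (M Z : ℕ) : ℕ := Nat.xor M (Nat.land M Z)

theorem bit_lor {M N p q : ℕ} : bit (Nat.lor M N) p q ↔ bit M p q ∨ bit N p q := by
  show (M ||| N).testBit _ = true ↔ _
  simp [bit]

theorem bit_mn {M Z p q : ℕ} : bit (mn M Z) p q ↔ bit M p q ∧ ¬ bit Z p q := by
  show (M ^^^ (M &&& Z)).testBit _ = true ↔ _
  simp only [bit, Nat.testBit_xor, Nat.testBit_and]
  cases M.testBit (64 * p + q) <;> cases Z.testBit (64 * p + q) <;> simp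

theorem bit_put_of {X a q : ℕ} (h : X.testBit q = true) : bit (put X a) a q := by
  show (X <<< (64 * a)).testBit _ = true
  simp [Nat.testBit_shiftLeft, h]

theorem of_bit_put {X a p q : ℕ} (hX : ∀ i, X.testBit i = true → i < 64) (hq : q < 64)
    (h : bit (put X a) p q) : p = a ∧ X.testBit q = true := by
  have h' : (X <<< (64 * a)).testBit (64 * p + q) = true := h
  simp only [Nat.testBit_shiftLeft, Bool.and_eq_true, decide_eq_true_eq] at h'
  have := hX _ h'.2
  have e : p = a := by omega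
  subst e
  exact ⟨rfl, by simpa using h'.2⟩

theorem tb_one {a i : ℕ} : (one a).testBit i = true ↔ i = a := by
  show (1 <<< a).testBit i = true ↔ _
  rw [Nat.one_shiftLeft, Nat.testBit_two_pow]
  simp [eq_comm]

theorem tb_lor {M N i : ℕ} : (Nat.lor M N).testBit i = true ↔
    M.testBit i = true ∨ N.testBit i = true := by
  show (M ||| N).testBit _ = true ↔ _
  simp

theorem tb_tm {a b c i : ℕ} : (tm a b c).testBit i = true ↔ T3 a b c i := by
  simp only [tm, tb_lor, tb_one, T3]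

theorem tb_R0 {i : ℕ} : (18446744073709551615 : ℕ).testBit i = true ↔ i < 64 := by
  have : (18446744073709551615 : ℕ) = 2 ^ 64 - 1 := by norm_num
  rw [this, Nat.testBit_two_pow_sub_one]
  simp

theorem tb_row {M v q : ℕ} (hq : q < 64) (h : bit M v q) : (row M v).testBit q = true := by
  show ((M >>> (64 * v)) &&& 18446744073709551615).testBit q = true
  rw [Nat.testBit_and, Nat.testBit_shiftRight, Bool.and_eq_true]
  exact ⟨h, tb_R0.2 hq⟩

theorem bit_rows_of {X a b c p q : ℕ} (hp : T3 a b c p) (h : X.testBit q = true) :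
    bit (rows X a b c) p q := by
  simp only [rows, bit_lor]
  rcases hp with rfl | rfl | rfl
  · exact Or.inl (bit_put_of h)
  · exact Or.inr (Or.inl (bit_put_of h))
  · exact Or.inr (Or.inr (bit_put_of h))

theorem of_bit_rows {X a b c p q : ℕ} (hX : ∀ i, X.testBit i = true → i < 64) (hq : q < 64)
    (h : bit (rows X a b c) p q) : T3 a b c p ∧ X.testBit q = true := by
  simp only [rows, bit_lor] at h
  rcases h with h | h | h
  · exact ⟨Or.inl (of_bit_put hX hq h).1, (of_bit_put hX hq h).2⟩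
  · exact ⟨Or.inr (Or.inl (of_bit_put hX hq h).1), (of_bit_put hX hq h).2⟩
  · exact ⟨Or.inr (Or.inr (of_bit_put hX hq h).1), (of_bit_put hX hq h).2⟩

def subM (X Y : ℕ) : Bool := Nat.beq (Nat.lor X Y) Y

theorem subM_spec {X Y : ℕ} (h : subM X Y = true) (i : ℕ) (hi : X.testBit i = true) :
    Y.testBit i = true := by
  have e : Nat.lor X Y = Y := Nat.eq_of_beq_eq_true h
  rw [← e]
  exact tb_lor.2 (Or.inl hi)

def step (k v a b c t M : ℕ) (κ : ℕ → Bool) : Bool :=
  Nat.ble k v && bif Nat.beq t 0 then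
    subM (row M v) (Nat.lor (tm a b c) (one v)) &&
      κ (Nat.lor (mn M (Nat.lor (put 18446744073709551615 v) (rows (one v) a b c)))
        (rows (tm a b c) a b c))
  else Nat.beq (Nat.lor (row M v) (Nat.land (tm a b c) (one v))) 0 &&
      κ (Nat.lor (mn M (rows (tm a b c) a b c))
        (Nat.lor (put (tm a b c) v) (rows (one v) a b c)))

def diagM : ℕ := 0x8000000000000000400000000000000020000000000000001000000000000000080000000000000004000000000000000200000000000000010000000000000000800000000000000040000000000000002000000000000000100000000000000008000000000000000400000000000000020000000000000001000000000000000080000000000000004000000000000000200000000000000010000000000000000800000000000000040000000000000002000000000000000100000000000000008000000000000000400000000000000020000000000000001000000000000000080000000000000004000000000000000200000000000000010000000000000000800000000000000040000000000000002000000000000000100000000000000008000000000000000400000000000000020000000000000001000000000000000080000000000000004000000000000000200000000000000010000000000000000800000000000000040000000000000002000000000000000100000000000000008000000000000000400000000000000020000000000000001000000000000000080000000000000004000000000000000200000000000000010000000000000000800000000000000040000000000000002000000000000000100000000000000008000000000000000400000000000000020000000000000001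

theorem diagM_spec : ∀ p < 64, ∀ q < 64, diagM.testBit (64 * p + q) = true → p = q := by
  decide +kernel

def blk (X : ℕ) : ℕ → ℕ
  | 0 => 0
  | n + 1 => Nat.lor (put X n) (blk X n)

theorem of_bit_blk {X p q : ℕ} (hX : ∀ i, X.testBit i = true → i < 64) (hq : q < 64) :
    ∀ n, bit (blk X n) p q → p < n ∧ X.testBit q = true
  | 0, h => by simp [blk, bit] at h
  | n + 1, h => by
    rw [blk, bit_lor] at h
    rcases h with h | h
    · have := of_bit_put hX hq h
      exact ⟨by omega, this.2⟩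
    · have := of_bit_blk hX hq n h
      exact ⟨by omega, this.2⟩

def tsM (k s : ℕ) : ℕ := Nat.lor (Nat.pred (one k)) (one s)

theorem tb_tsM {k s i : ℕ} : (tsM k s).testBit i = true ↔ i < k ∨ i = s := by
  rw [tsM, tb_lor, tb_one]
  have : Nat.pred (one k) = 2 ^ k - 1 := by
    show (1 <<< k) - 1 = _
    rw [Nat.one_shiftLeft]
  rw [this, Nat.testBit_two_pow_sub_one]
  simp

def finOK (k s M : ℕ) : Bool :=
  Nat.ble k s && subM M (Nat.lor diagM (Nat.lor (put (tsM k s) s) (blk (tsM k s) k)))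

theorem finOK_spec {k s M p q : ℕ} (hs : s < 64) (h : finOK k s M = true) (hp : p < 64)
    (hq : q < 64) (hb : bit M p q) : p = q ∨ ((p < k ∨ p = s) ∧ (q < k ∨ q = s)) := by
  rw [finOK, Bool.and_eq_true, Nat.ble_eq] at h
  have hX : ∀ i, (tsM k s).testBit i = true → i < 64 := fun i hi => by
    have := tb_tsM.1 hi
    omega
  have : bit (Nat.lor diagM (Nat.lor (put (tsM k s) s) (blk (tsM k s) k))) p q :=
    subM_spec h.2 _ hb
  rw [bit_lor, bit_lor] at this
  rcases this with h1 | h1 | h1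
  · exact Or.inl (diagM_spec p hp q hq h1)
  · have := of_bit_put hX hq h1
    exact Or.inr ⟨Or.inr this.1, tb_tsM.1 this.2⟩
  · have := of_bit_blk hX hq k h1
    exact Or.inr ⟨Or.inl this.1, tb_tsM.1 this.2⟩

def stepo (k o M : ℕ) (κ : ℕ → Bool) : Bool :=
  step k (Nat.land o 63) (Nat.land (Nat.shiftRight o 6) 63) (Nat.land (Nat.shiftRight o 12) 63)
    (Nat.land (Nat.shiftRight o 18) 63) (Nat.shiftRight o 24) M κ

/-- certificate checker -/
def chk (k : ℕ) : ℕ → ℕ → ℕ → Bool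
  | 0, C, M => finOK k (Nat.land C 63) M
  | n + 1, C, M => stepo k (Nat.land C 33554431) M (fun M' => chk k n (Nat.shiftRight C 25) M')

theorem land63 (x : ℕ) : Nat.land x 63 < 64 :=
  Nat.lt_succ_of_le (Nat.and_le_right (n := x) (m := 63))

/-- `G` is covered by the relation `Q` and the image of the bit matrix `M` under `φ` -/
def CovM (G : SG) (Q : ℕ → ℕ → Prop) (φ : ℕ → ℕ) (M : ℕ) : Prop :=
  ∀ x y, G.A x y → Q x y ∨ Q y x ∨ ∃ p q, p < 64 ∧ q < 64 ∧ bit M p q ∧ φ p = x ∧ φ q = y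

theorem step_sound {k : ℕ} {φ : ℕ → ℕ} (hφ : Function.Injective φ) {Q : ℕ → ℕ → Prop}
    (hQ : ∀ z, k ≤ z → ∀ y, ¬ Q (φ z) y ∧ ¬ Q y (φ z)) {v a b c t M : ℕ}
    (hv : v < 64) (ha : a < 64) (hb : b < 64) (hc : c < 64)
    {κ : ℕ → Bool} (hκ : ∀ M', κ M' = true → ∀ G, CovM G Q φ M' → Rd G)
    (h : step k v a b c t M κ = true) (G : SG) (hG : CovM G Q φ M) : Rd G := by
  rw [step, Bool.and_eq_true, Nat.ble_eq] at h
  obtain ⟨hk, h⟩ := h
  have hT : ∀ q, T3 a b c q → T3 (φ a) (φ b) (φ c) (φ q) := by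
    rintro q (rfl | rfl | rfl)
    · exact Or.inl rfl
    · exact Or.inr (Or.inl rfl)
    · exact Or.inr (Or.inr rfl)
  have hT' : ∀ y, T3 (φ a) (φ b) (φ c) y → ∃ q, T3 a b c q ∧ φ q = y := by
    rintro y (rfl | rfl | rfl)
    · exact ⟨a, Or.inl rfl, rfl⟩
    · exact ⟨b, Or.inr (Or.inl rfl), rfl⟩
    · exact ⟨c, Or.inr (Or.inr rfl), rfl⟩
  have hT64 : ∀ q, T3 a b c q → q < 64 := by
    rintro q (rfl | rfl | rfl) <;> assumption
  have hone : ∀ i, (one v).testBit i = true → i < 64 := fun i hi => by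
    rw [tb_one.1 hi]; exact hv
  have htm : ∀ i, (tm a b c).testBit i = true → i < 64 := fun i hi => hT64 i (tb_tm.1 hi)
  have hrow : ∀ x, G.A (φ v) x → ∃ q, (row M v).testBit q = true ∧ φ q = x := by
    intro x hx
    rcases hG _ _ hx with h | h | ⟨p, q, -, hq, h1, h2, h3⟩
    · exact absurd h (hQ v hk x).1
    · exact absurd h (hQ v hk x).2
    · obtain rfl := hφ h2
      exact ⟨q, tb_row hq h1, h3⟩
  by_cases ht : Nat.beq t 0 = true
  · simp only [ht, cond_true, Bool.and_eq_true] at h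
    obtain ⟨k4, k1⟩ := h
    have hn : ∀ x, G.A (φ v) x → ∃ q, T3 a b c q ∧ φ q = x := by
      intro x hx
      obtain ⟨q, h1, rfl⟩ := hrow x hx
      have hq : q ≠ v := fun e => G.irr (φ v) (e ▸ hx)
      have := tb_lor.1 (subM_spec k4 q h1)
      rw [tb_tm, tb_one] at this
      exact ⟨q, this.resolve_right hq, rfl⟩
    obtain ⟨n, hn'⟩ := hκ _ k1 (G.elim (φ v)) (by
      rintro x y ⟨hxy, hx, hy, hA | ⟨hA1, hA2⟩⟩
      · rcases hG _ _ hA with h | h | ⟨p, q, hp', hq', h1, rfl, rfl⟩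
        · exact Or.inl h
        · exact Or.inr (Or.inl h)
        · have hp : p ≠ v := fun e => hx (by rw [e])
          have hq : q ≠ v := fun e => hy (by rw [e])
          refine Or.inr (Or.inr ⟨p, q, hp', hq', bit_lor.2 (Or.inl (bit_mn.2 ⟨h1, ?_⟩)), rfl, rfl⟩)
          rw [bit_lor]
          rintro (h2 | h2)
          · exact hp (of_bit_put (fun i hi => tb_R0.1 hi) hq' h2).1
          · exact hq (tb_one.1 (of_bit_rows hone hq' h2).2)
      · obtain ⟨p, hp, rfl⟩ := hn x hA1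
        obtain ⟨q, hq, rfl⟩ := hn y hA2
        exact Or.inr (Or.inr ⟨p, q, hT64 p hp, hT64 q hq,
          bit_lor.2 (Or.inr (bit_rows_of hp (tb_tm.2 hq))), rfl, rfl⟩))
    refine ⟨n + 1, red_elim (a := φ a) (b := φ b) (c := φ c) (fun x hx => ?_) hn'⟩
    obtain ⟨q, hq, rfl⟩ := hn x hx
    exact hT q hq
  · have e : Nat.beq t 0 = false := Bool.eq_false_iff.2 ht
    simp only [e, cond_false, Bool.and_eq_true] at h
    obtain ⟨k4, k1⟩ := h
    have k5 : ∀ i, ¬ (Nat.lor (row M v) (Nat.land (tm a b c) (one v))).testBit i = true := by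
      intro i
      rw [Nat.eq_of_beq_eq_true k4]
      simp
    have h0' : ¬ T3 a b c v := by
      intro h
      refine k5 v (tb_lor.2 (Or.inr ?_))
      show (tm a b c &&& one v).testBit v = true
      rw [Nat.testBit_and, tb_tm.2 h, tb_one.2 rfl]
      rfl
    obtain ⟨n, hn'⟩ := hκ _ k1 (G.dy (φ a) (φ b) (φ c) (φ v)) (by
      rintro x y ⟨-, ⟨hA, hN⟩ | ⟨rfl, hy⟩ | ⟨rfl, hx⟩⟩
      · rcases hG _ _ hA with h | h | ⟨p, q, hp', hq', h1, rfl, rfl⟩
        · exact Or.inl h
        · exact Or.inr (Or.inl h)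
        · refine Or.inr (Or.inr ⟨p, q, hp', hq', bit_lor.2 (Or.inl (bit_mn.2 ⟨h1, ?_⟩)), rfl, rfl⟩)
          intro h2
          have := of_bit_rows htm hq' h2
          exact hN ⟨hT _ this.1, hT _ (tb_tm.1 this.2)⟩
      · obtain ⟨q, hq, rfl⟩ := hT' y hy
        exact Or.inr (Or.inr ⟨v, q, hv, hT64 q hq,
          bit_lor.2 (Or.inr (bit_lor.2 (Or.inl (bit_put_of (tb_tm.2 hq))))), rfl, rfl⟩)
      · obtain ⟨q, hq, rfl⟩ := hT' x hx
        exact Or.inr (Or.inr ⟨q, v, hT64 q hq, hv,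
          bit_lor.2 (Or.inr (bit_lor.2 (Or.inr (bit_rows_of hq (tb_one.2 rfl))))), rfl, rfl⟩))
    refine ⟨n + 1, red_dy (fun x hx => ?_) (fun h => ?_) hn'⟩
    · obtain ⟨q, h1, -⟩ := hrow x hx
      exact k5 q (tb_lor.2 (Or.inl h1))
    · obtain ⟨q, hq, e⟩ := hT' _ h
      exact h0' (hφ e ▸ hq)

theorem chk_sound {k : ℕ} {φ : ℕ → ℕ} (hφ : Function.Injective φ) {Q : ℕ → ℕ → Prop}
    (hQ : ∀ z, k ≤ z → ∀ y, ¬ Q (φ z) y ∧ ¬ Q y (φ z))
    (hK : ∀ s, k ≤ s → ∀ G : SG, (∀ x y, G.A x y → Q x y ∨ Q y x ∨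
      ∃ p q, (p < k ∨ p = s) ∧ (q < k ∨ q = s) ∧ φ p = x ∧ φ q = y) → Rd G) :
    ∀ (n C M : ℕ), chk k n C M = true → ∀ G, CovM G Q φ M → Rd G
  | 0, C, M, h => by
    rw [chk] at h
    intro G hG
    have hk : k ≤ Nat.land C 63 := by
      rw [finOK, Bool.and_eq_true, Nat.ble_eq] at h
      exact h.1
    refine hK _ hk G fun x y hxy => ?_
    rcases hG x y hxy with h1 | h1 | ⟨p, q, hp, hq, h1, rfl, rfl⟩
    · exact Or.inl h1
    · exact Or.inr (Or.inl h1)
    · have hpq : p ≠ q := fun e => G.irr (φ p) (e ▸ hxy)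
      have := (finOK_spec (land63 C) h hp hq h1).resolve_left hpq
      exact Or.inr (Or.inr ⟨p, q, this.1, this.2, rfl, rfl⟩)
  | n + 1, C, M, h => by
    rw [chk, stepo] at h
    exact step_sound hφ hQ (land63 _) (land63 _) (land63 _) (land63 _)
      (fun M' h' => chk_sound hφ hQ hK n _ M' h') h

def mkM : List (ℕ × ℕ) → ℕ
  | [] => 0
  | (p, q) :: L => Nat.lor (Nat.lor (put (one q) p) (put (one p) q)) (mkM L)

theorem bit_mkM {p q : ℕ} : ∀ L : List (ℕ × ℕ), ((p, q) ∈ L ∨ (q, p) ∈ L) → bit (mkM L) p q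
  | [], h => by simp at h
  | (x, y) :: L, h => by
    rw [mkM, bit_lor, bit_lor]
    simp only [List.mem_cons, Prod.mk.injEq] at h
    rcases h with (⟨rfl, rfl⟩ | h) | (⟨rfl, rfl⟩ | h)
    · exact Or.inl (Or.inl (bit_put_of (tb_one.2 rfl)))
    · exact Or.inr (bit_mkM L (Or.inl h))
    · exact Or.inl (Or.inr (bit_put_of (tb_one.2 rfl)))
    · exact Or.inr (bit_mkM L (Or.inr h))

def run (k C : ℕ) (L : List (ℕ × ℕ)) : Bool :=
  chk k (Nat.land C 4095) (Nat.shiftRight C 12) (mkM L)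

/-- `G` is covered by the relation `Q` and the image of the edge list `L` under `φ` -/
def Cov (G : SG) (Q : ℕ → ℕ → Prop) (φ : ℕ → ℕ) (L : List (ℕ × ℕ)) : Prop :=
  ∀ x y, G.A x y → Q x y ∨ Q y x ∨ ∃ p q, ((p, q) ∈ L ∨ (q, p) ∈ L) ∧ φ p = x ∧ φ q = y

theorem run_sound {k : ℕ} {φ : ℕ → ℕ} (hφ : Function.Injective φ) {Q : ℕ → ℕ → Prop}
    (hQ : ∀ z, k ≤ z → ∀ y, ¬ Q (φ z) y ∧ ¬ Q y (φ z))
    (hK : ∀ s, k ≤ s → ∀ G : SG, (∀ x y, G.A x y → Q x y ∨ Q y x ∨
      ∃ p q, (p < k ∨ p = s) ∧ (q < k ∨ q = s) ∧ φ p = x ∧ φ q = y) → Rd G)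
    {C : ℕ} {L : List (ℕ × ℕ)} (hL : ∀ e ∈ L, e.1 < 64 ∧ e.2 < 64) (h : run k C L = true)
    (G : SG) (hG : Cov G Q φ L) : Rd G := by
  refine chk_sound hφ hQ hK _ _ _ h G fun x y hxy => ?_
  rcases hG x y hxy with h1 | h1 | ⟨p, q, h1, h2, h3⟩
  · exact Or.inl h1
  · exact Or.inr (Or.inl h1)
  · refine Or.inr (Or.inr ⟨p, q, ?_, ?_, bit_mkM L h1, h2, h3⟩)
    · rcases h1 with h1 | h1
      · exact (hL _ h1).1
      · exact (hL _ h1).2
    · rcases h1 with h1 | h1
      · exact (hL _ h1).2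
      · exact (hL _ h1).1

end Pool.Agent.P.MP_5af56b_co
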