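import Pool.Agent.P.MP_5af56b_co.Check

namespace Pool.Agent.P.MP_5af56b_co

open Relation

def adjL (A : List (ℕ × ℕ)) (p q : ℕ) : Prop := (p, q) ∈ A ∨ (q, p) ∈ A

theorem of_bit_mkM {p q : ℕ} (hq : q < 64) : ∀ L : List (ℕ × ℕ),
    (∀ e ∈ L, e.1 < 64 ∧ e.2 < 64) → bit (mkM L) p q → adjL L p q
  | [], _, h => by simp [mkM, bit] at h
  | (x, y) :: L, hL, h => by
    rw [mkM, bit_lor, bit_lor] at h
    have h0 := hL (x, y) List.mem_cons_self
    rcases h with (h | h) | h
    · have := of_bit_put (fun i hi => by rw [tb_one.1 hi]; exact h0.2) hq h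
      rw [tb_one] at this
      exact Or.inl (by rw [this.1, this.2]; exact List.mem_cons_self)
    · have := of_bit_put (fun i hi => by rw [tb_one.1 hi]; exact h0.1) hq h
      rw [tb_one] at this
      exact Or.inr (by rw [this.1, this.2]; exact List.mem_cons_self)
    · rcases of_bit_mkM hq L (fun e he => hL e (List.mem_cons_of_mem _ he)) h with h | h
      · exact Or.inl (List.mem_cons_of_mem _ h)
      · exact Or.inr (List.mem_cons_of_mem _ h)

theorem of_tb_row {M v q : ℕ} (h : (row M v).testBit q = true) : q < 64 ∧ bit M v q := by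
  have h' : ((M >>> (64 * v)) &&& 18446744073709551615).testBit q = true := h
  rw [Nat.testBit_and, Nat.testBit_shiftRight, Bool.and_eq_true] at h'
  exact ⟨tb_R0.1 h'.2, h'.1⟩

theorem tb_mn {M Z i : ℕ} : (mn M Z).testBit i = true ↔
    M.testBit i = true ∧ ¬ Z.testBit i = true := by
  show (M ^^^ (M &&& Z)).testBit _ = true ↔ _
  simp only [Nat.testBit_xor, Nat.testBit_and]
  cases M.testBit i <;> cases Z.testBit i <;> simp

def tb (S v : ℕ) : Bool := Nat.beq (Nat.land (Nat.shiftRight S v) 1) 1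

theorem tb_iff {S v : ℕ} : tb S v = true ↔ S.testBit v = true := by
  rw [tb, Nat.beq_eq]
  show (S >>> v) &&& 1 = 1 ↔ _
  rw [Nat.and_one_is_mod, Nat.testBit_eq_decide_div_mod_eq, Nat.shiftRight_eq_div_pow]
  simp

def sweep (M X : ℕ) : ℕ → ℕ → ℕ
  | 0, S => S
  | v + 1, S => sweep M X v (bif tb S v then Nat.lor S (mn (row M v) X) else S)

/-- iterate sweeps until the target `W` is covered -/
def reach (M X n W : ℕ) : ℕ → ℕ → Bool
  | 0, _ => false
  | r + 1, S => subM W S || reach M X n W r (sweep M X n S)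

theorem sweep_spec {M X : ℕ} {P : ℕ → Prop}
    (hP : ∀ v u, P v → u < 64 → bit M v u → ¬ X.testBit u = true → P u) :
    ∀ (n S : ℕ), (∀ u, S.testBit u = true → P u) → ∀ u, (sweep M X n S).testBit u = true → P u
  | 0, _, h => h
  | v + 1, S, h => by
    rw [sweep]
    refine sweep_spec hP v _ ?_
    cases e : tb S v with
    | false => exact h
    | true =>
      intro u hu
      rcases tb_lor.1 hu with hu | hu
      · exact h u hu
      · rw [tb_mn] at hu
        exact hP v u (h v (tb_iff.1 e)) (of_tb_row hu.1).1 (of_tb_row hu.1).2 hu.2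

theorem reach_spec {M X n W : ℕ} {P : ℕ → Prop}
    (hP : ∀ v u, P v → u < 64 → bit M v u → ¬ X.testBit u = true → P u) :
    ∀ (r S : ℕ), (∀ u, S.testBit u = true → P u) → reach M X n W r S = true →
      ∀ u, W.testBit u = true → P u
  | 0, _, _, h => by simp [reach] at h
  | r + 1, S, hS, h => by
    rw [reach, Bool.or_eq_true] at h
    rcases h with h | h
    · exact fun u hu => hS u (subM_spec h u hu)
    · exact reach_spec hP r _ (sweep_spec hP n S hS) h

/-- `f` holds at `X` enlarged by any set of at most `j` elements of `[i, i + m)` -/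
def subs (f : ℕ → Bool) : ℕ → ℕ → ℕ → ℕ → Bool
  | 0, _, _, X => f X
  | j + 1, i, m, X => f X &&
      (List.range m).all fun d => subs f j (Nat.succ (Nat.add i d)) (Nat.sub m (Nat.succ d))
        (Nat.lor X (one (Nat.add i d)))

theorem subs_spec {f : ℕ → Bool} : ∀ (j i m X : ℕ), subs f j i m X = true →
    ∀ Y : Finset ℕ, Y.card ≤ j → (∀ y ∈ Y, i ≤ y ∧ y < i + m) →
      ∃ X', f X' = true ∧ ∀ u, X'.testBit u = true ↔ X.testBit u = true ∨ u ∈ Y
  | 0, i, m, X, h => by
    intro Y hY _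
    rw [Nat.le_zero, Finset.card_eq_zero] at hY
    exact ⟨X, h, by simp [hY]⟩
  | j + 1, i, m, X, h => by
    intro Y hY hr
    rw [subs, Bool.and_eq_true, List.all_eq_true] at h
    rcases Y.eq_empty_or_nonempty with rfl | hne
    · exact ⟨X, h.1, by simp⟩
    have hy := Y.min'_mem hne
    set y := Y.min' hne with hy'
    have h2 := h.2 (y - i) (List.mem_range.2 (by have := hr y hy; omega))
    have e : Nat.add i (y - i) = y := by
      have := hr y hy
      show i + (y - i) = y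
      omega
    rw [e] at h2
    obtain ⟨X', h3, h4⟩ := subs_spec j _ _ _ h2 (Y.erase y)
      (by rw [Finset.card_erase_of_mem hy]; omega) (by
        intro z hz
        have hz' := Finset.mem_erase.1 hz
        have a1 := hr z hz'.2
        have a2 := hr y hy
        have a3 : y ≤ z := Y.min'_le z hz'.2
        have a4 := hz'.1
        show y + 1 ≤ z ∧ z < y + 1 + (m - (y - i + 1))
        omega)
    refine ⟨X', h3, fun u => ?_⟩
    rw [h4, tb_lor, tb_one, Finset.mem_erase]
    constructor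
    · rintro ((h | rfl) | h)
      · exact Or.inl h
      · exact Or.inr hy
      · exact Or.inr h.2
    · rintro (h | h)
      · exact Or.inl (Or.inl h)
      · by_cases e : u = y
        · exact Or.inl (Or.inr e)
        · exact Or.inr ⟨e, h⟩

def low (k : ℕ) : ℕ := Nat.pred (one k)

theorem tb_low {k i : ℕ} : (low k).testBit i = true ↔ i < k := by
  have : low k = 2 ^ k - 1 := by
    show (1 <<< k) - 1 = _
    rw [Nat.one_shiftLeft]
  rw [this, Nat.testBit_two_pow_sub_one]
  simp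

/-- walks in the piece `A` avoiding `Y` -/
def PA (A : List (ℕ × ℕ)) (Y : Finset ℕ) : ℕ → ℕ → Prop :=
  ReflTransGen fun a b => a ∉ Y ∧ b ∉ Y ∧ adjL A a b

def conn1 (k n M : ℕ) : Bool :=
  subs (fun X => reach M X n (mn (low n) X) 12 (mn (low k) X)) (Nat.pred k) 0 n 0

def conn2 (k n M : ℕ) : Bool :=
  subs (fun X0 => subs (fun X => (List.range k).all fun t =>
    tb X t || reach M X n (mn (low k) X) 12 (one t)) 1 k (Nat.sub n k) X0) k 0 k 0

theorem conn1_spec {k n : ℕ} {A : List (ℕ × ℕ)} (hA : ∀ e ∈ A, e.1 < 64 ∧ e.2 < 64)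
    (h : conn1 k n (mkM A) = true) (Y : Finset ℕ) (hY : Y.card < k) (hYn : ∀ y ∈ Y, y < n)
    (u : ℕ) (hu : u < n) (huY : u ∉ Y) : ∃ t, t < k ∧ t ∉ Y ∧ PA A Y t u := by
  obtain ⟨X, h1, h2⟩ := subs_spec _ _ _ _ h Y (by show _ ≤ k - 1; omega)
    (fun y hy => ⟨Nat.zero_le _, by simpa using hYn y hy⟩)
  have h3 : ∀ u, X.testBit u = true ↔ u ∈ Y := by simpa using h2
  refine (reach_spec (P := fun u => u ∉ Y ∧ ∃ t, t < k ∧ t ∉ Y ∧ PA A Y t u) ?_ _ _ ?_ h1 u ?_).2
  · rintro v u ⟨hv, t, ht1, ht2, ht3⟩ hu hb hX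
    rw [h3] at hX
    exact ⟨hX, t, ht1, ht2, ht3.tail ⟨hv, hX, of_bit_mkM hu A hA hb⟩⟩
  · intro u hu
    rw [tb_mn, tb_low, h3] at hu
    exact ⟨hu.2, u, hu.1, hu.2, ReflTransGen.refl⟩
  · rw [tb_mn, tb_low, h3]
    exact ⟨hu, huY⟩

theorem conn2_spec {k n : ℕ} {A : List (ℕ × ℕ)} (hA : ∀ e ∈ A, e.1 < 64 ∧ e.2 < 64)
    (h : conn2 k n (mkM A) = true) (Y : Finset ℕ) (hY : (Y.filter (fun y => k ≤ y)).card ≤ 1)
    (hYn : ∀ y ∈ Y, y < n) (t t' : ℕ) (ht : t < k) (ht' : t' < k) (htY : t ∉ Y) (htY' : t' ∉ Y) :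
    PA A Y t t' := by
  obtain ⟨X0, h1, h2⟩ := subs_spec _ _ _ _ h (Y.filter (fun y => y < k))
    (by
      calc _ ≤ (Finset.range k).card := Finset.card_le_card fun y hy =>
            Finset.mem_range.2 (Finset.mem_filter.1 hy).2
        _ = k := Finset.card_range k)
    (fun y hy => ⟨Nat.zero_le _, by simpa using (Finset.mem_filter.1 hy).2⟩)
  obtain ⟨X, h4, h5⟩ := subs_spec _ _ _ _ h1 _ hY (fun y hy => by
    have a1 := (Finset.mem_filter.1 hy).2
    have a2 := hYn y (Finset.mem_filter.1 hy).1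
    show k ≤ y ∧ y < k + (n - k)
    omega)
  have h3 : ∀ u, X.testBit u = true ↔ u ∈ Y := by
    intro u
    rw [h5, h2]
    simp only [Nat.zero_testBit, Bool.false_eq_true, false_or, Finset.mem_filter]
    constructor
    · rintro (h | h) <;> exact h.1
    · intro h
      by_cases e : u < k
      · exact Or.inl ⟨h, e⟩
      · exact Or.inr ⟨h, by omega⟩
  have h6 := List.all_eq_true.1 h4 t (List.mem_range.2 ht)
  rw [Bool.or_eq_true, tb_iff, h3] at h6
  refine (reach_spec (P := fun u => u ∉ Y ∧ PA A Y t u) ?_ _ _ ?_ (h6.resolve_left htY) t' ?_).2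
  · rintro v u ⟨hv, ht3⟩ hu hb hX
    rw [h3] at hX
    exact ⟨hX, ht3.tail ⟨hv, hX, of_bit_mkM hu A hA hb⟩⟩
  · intro u hu
    rw [tb_one] at hu
    rw [hu]
    exact ⟨htY, ReflTransGen.refl⟩
  · rw [tb_mn, tb_low, h3]
    exact ⟨ht', htY'⟩

end Pool.Agent.P.MP_5af56b_co
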