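import Mathlib

namespace Pool.Agent.P.MP_5af56b_co

/-- A finite graph with parallel edges allowed and no loops; vertices are labelled by naturals. -/
structure MG where
  V : Finset ℕ
  E : Multiset (Sym2 ℕ)
  mem : ∀ e ∈ E, ∀ v ∈ e, v ∈ V
  loopless : ∀ e ∈ E, ¬ e.IsDiag

/-- One allowed operation turning the first graph into the second; `R` is the multiset of the
edges that are left untouched. -/
inductive Step : MG → MG → Prop
  | deltaY (G H : MG) (a b c w : ℕ) (R : Multiset (Sym2 ℕ)) :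
      w ∉ G.V → H.V = insert w G.V → G.E = {s(a, b), s(b, c), s(c, a)} + R →
      H.E = {s(w, a), s(w, b), s(w, c)} + R → Step G H
  | yDelta (G H : MG) (a b c v : ℕ) (R : Multiset (Sym2 ℕ)) :
      v ∉ H.V → G.V = insert v H.V → G.E = {s(v, a), s(v, b), s(v, c)} + R →
      H.E = {s(a, b), s(b, c), s(c, a)} + R → Step G H
  | parallel (G H : MG) (a b : ℕ) (R : Multiset (Sym2 ℕ)) :
      H.V = G.V → G.E = {s(a, b), s(a, b)} + R → H.E = {s(a, b)} + R → Step G H
  | series (G H : MG) (a b v : ℕ) (R : Multiset (Sym2 ℕ)) :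
      v ∉ H.V → G.V = insert v H.V → G.E = {s(v, a), s(v, b)} + R →
      H.E = {s(a, b)} + R → Step G H

/-- Two vertices joined by two parallel edges. -/
def IsTwoCycle (G : MG) : Prop :=
  ∃ a b : ℕ, G.V = {a, b} ∧ G.E = {s(a, b), s(a, b)}

/-- Some finite sequence of allowed operations turns `G` into a 2-cycle. -/
def Reducible (G : MG) : Prop :=
  ∃ H : MG, Relation.ReflTransGen Step G H ∧ IsTwoCycle H

/-- Any two vertices of `S` are joined by a walk of `G` inside `S`. -/
def ConnOn (G : MG) (S : Set ℕ) : Prop :=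
  ∀ x ∈ S, ∀ y ∈ S, Relation.ReflTransGen (fun a b => a ∈ S ∧ b ∈ S ∧ s(a, b) ∈ G.E) x y

/-- At least two edges, connected, and connected after deleting any one vertex. -/
def TwoConn (G : MG) : Prop :=
  2 ≤ Multiset.card G.E ∧ ConnOn G {x | x ∈ G.V} ∧ ∀ v : ℕ, ConnOn G {x | x ∈ G.V ∧ x ≠ v}

/-- `H` is a minor of `G`: a set `U` of vertices of `G` is mapped by `f` onto the vertices of `H`
with connected fibres (the branch sets), and the edges of `H` are the images of a sub-multiset `F`
of edges of `G` with ends in `U`. -/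
def IsMinor (H G : MG) : Prop :=
  ∃ (U : Finset ℕ) (f : ℕ → ℕ) (F : Multiset (Sym2 ℕ)), U ⊆ G.V ∧ H.V = U.image f ∧
    (∀ x : ℕ, ConnOn G {u | u ∈ U ∧ f u = x}) ∧
    F ≤ G.E ∧ (∀ e ∈ F, ∀ v ∈ e, v ∈ U) ∧ H.E = F.map (Sym2.map f)

/-- Isomorphism of multigraphs. -/
def Iso (G H : MG) : Prop :=
  ∃ f : ℕ → ℕ, Set.InjOn f {x | x ∈ G.V} ∧ H.V = G.V.image f ∧ H.E = G.E.map (Sym2.map f)

/-- Minor-minimal non-reducible graphs. -/
def MinNonRed (G : MG) : Prop :=
  TwoConn G ∧ ¬ Reducible G ∧
    ∀ H : MG, IsMinor H G → ¬ Iso G H → ¬ (TwoConn H ∧ ¬ Reducible H)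

/-- The graph with the listed (non-loop) edges, whose vertices are their ends. -/
def ofList (L : List (ℕ × ℕ)) : MG where
  V := ((L.filter (fun p => p.1 ≠ p.2)).flatMap (fun p => [p.1, p.2])).toFinset
  E := ((L.filter (fun p => p.1 ≠ p.2)).map (fun p => s(p.1, p.2)) : List (Sym2 ℕ))
  mem := by
    intro e he v hv
    simp only [Multiset.mem_coe, List.mem_map] at he
    obtain ⟨p, hp, rfl⟩ := he
    simp only [List.mem_toFinset, List.mem_flatMap]
    refine ⟨p, hp, ?_⟩
    simpa using hv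
  loopless := by
    intro e he
    simp only [Multiset.mem_coe, List.mem_map] at he
    obtain ⟨p, hp, rfl⟩ := he
    simpa using (List.mem_filter.1 hp).2

/-- Relabelling of the second piece: terminal `x < k` goes to `σ x`, any other `x` to `x + 100`. -/
def shift (k : ℕ) (σ : Equiv.Perm (Fin k)) (x : ℕ) : ℕ :=
  if h : x < k then (σ ⟨x, h⟩ : ℕ) else x + 100

/-- The union of the pieces `A` and `B` (edge lists on labels below 100 whose terminals are
`0, …, k-1`), terminal `x` of `B` being identified with terminal `σ x` of `A`. -/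
def glue (k : ℕ) (σ : Equiv.Perm (Fin k)) (A B : List (ℕ × ℕ)) : MG :=
  ofList (A ++ B.map (fun p => (shift k σ p.1, shift k σ p.2)))

end Pool.Agent.P.MP_5af56b_co
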