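import Pool.Agent.P.MP_5af56b_co.Piece

namespace Pool.Agent.P.MP_5af56b_co

open Relation

def Im (A : List (ℕ × ℕ)) (φ : ℕ → ℕ) (x y : ℕ) : Prop :=
  ∃ p q, adjL A p q ∧ φ p = x ∧ φ q = y

theorem Im.symm {A : List (ℕ × ℕ)} {φ : ℕ → ℕ} {x y : ℕ} (h : Im A φ x y) : Im A φ y x :=
  let ⟨p, q, h1, h2, h3⟩ := h; ⟨q, p, h1.symm, h3, h2⟩

structure Setup (k : ℕ) (A B : List (ℕ × ℕ)) (φ ψ : ℕ → ℕ) (G : MG) : Prop where
  pA : Piece k A
  pB : Piece k B
  iφ : Function.Injective φ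
  iψ : Function.Injective ψ
  adj : ∀ x y, s(x, y) ∈ G.E ↔ Im A φ x y ∨ Im B ψ x y
  t1 : ∀ t < k, ∃ t' < k, φ t = ψ t'
  t2 : ∀ t < k, ∃ t' < k, ψ t = φ t'
  s1 : ∀ z, k ≤ z → ∀ x < 60, φ z ≠ ψ x
  s2 : ∀ z, k ≤ z → ∀ x < 60, ψ z ≠ φ x
  hV : ∀ x ∈ G.V, ∃ y, s(x, y) ∈ G.E

variable {k : ℕ} {A B : List (ℕ × ℕ)} {φ ψ : ℕ → ℕ} {G : MG}

theorem Setup.symm (S : Setup k A B φ ψ G) : Setup k B A ψ φ G :=
  ⟨S.pB, S.pA, S.iψ, S.iφ, fun x y => (S.adj x y).trans or_comm, S.t2, S.t1, S.s2, S.s1, S.hV⟩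

theorem Setup.notB (S : Setup k A B φ ψ G) {z y : ℕ} (hz : k ≤ z) : ¬ Im B ψ (φ z) y := by
  rintro ⟨p, q, h1, h2, -⟩
  exact S.s1 z hz p (S.pB.adj h1).1 h2.symm

theorem Setup.nbrA (S : Setup k A B φ ψ G) {z y : ℕ} (hz : k ≤ z) (h : s(φ z, y) ∈ G.E) :
    ∃ q, adjL A z q ∧ φ q = y := by
  rcases (S.adj _ _).1 h with ⟨p, q, h1, h2, h3⟩ | h
  · obtain rfl := S.iφ h2
    exact ⟨q, h1, h3⟩
  · exact absurd h (S.notB hz)

theorem Setup.side_rd (S : Setup k A B φ ψ G) (hk : k ≤ 60) {C : ℕ} {L : List (ℕ × ℕ)}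
    (hL : ∀ e ∈ L, e.1 < 64 ∧ e.2 < 64) (h : run k C L = true) (G' : SG)
    (hG : Cov G' (Im B ψ) φ L) : Rd G' := by
  refine run_sound S.iφ (fun z hz y => ⟨S.notB hz, fun h => S.notB hz h.symm⟩) ?_ hL h G' hG
  intro s hs G'' hG''
  obtain ⟨χ, c1, c2, c3⟩ := ext_inj S.iψ (y := φ s) (fun x hx e => S.s1 s hs x hx e.symm)
  obtain ⟨C', hC'⟩ := S.pB.kred
  refine run_sound (Q := fun _ _ => False) c1 (fun _ _ _ => ⟨id, id⟩) ?_ ?_ hC' G'' ?_
  · intro s' _ K hK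
    refine ⟨0, Red.nil _ _ fun x y hxy => ?_⟩
    rcases hK x y hxy with h | h | ⟨p, q, h1, h2, rfl, rfl⟩
    · exact h
    · exact h
    · have : p = q := by omega
      exact K.irr _ (this ▸ hxy)
  · rintro ⟨p, q⟩ he
    rcases List.mem_append.1 he with he | he
    · have := S.pB.lt _ he
      omega
    · have := mem_KL.1 he
      simp only
      omega
  · have hT : ∀ p, p < k ∨ p = s → ∃ p', (p' < k ∨ p' = 60) ∧ χ p' = φ p := by
      rintro p (hp | rfl)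
      · obtain ⟨t', h1, h2⟩ := S.t1 p hp
        exact ⟨t', Or.inl h1, by rw [c2 t' (by omega), h2]⟩
      · exact ⟨60, Or.inr rfl, c3⟩
    have hB : ∀ x y, Im B ψ x y → ∃ p q, ((p, q) ∈ B ++ KL k ∨ (q, p) ∈ B ++ KL k) ∧
        χ p = x ∧ χ q = y := by
      rintro x y ⟨p, q, h1, rfl, rfl⟩
      have := S.pB.adj h1
      exact ⟨p, q, h1.imp (List.mem_append_left _) (List.mem_append_left _), c2 p this.1,
        c2 q this.2.1⟩
    intro x y hxy
    refine Or.inr (Or.inr ?_)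
    rcases hG'' x y hxy with h | h | ⟨p, q, h1, h2, rfl, rfl⟩
    · exact hB x y h
    · exact hB x y h.symm
    · obtain ⟨p', a1, a2⟩ := hT p h1
      obtain ⟨q', b1, b2⟩ := hT q h2
      exact ⟨p', q', Or.inl (List.mem_append_right _ (mem_KL.2 ⟨a1, b1⟩)), a2, b2⟩

theorem Setup.del_rd (S : Setup k A B φ ψ G) (hk : k ≤ 60) {x y : ℕ} (h : Im A φ x y) :
    Rd ((si G).del x y) := by
  have key : ∀ u v, (u, v) ∈ A → s(x, y) = s(φ u, φ v) → Rd ((si G).del x y) := by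
    intro u v huv e
    obtain ⟨⟨C, hC⟩, -⟩ := S.pA.dc _ huv
    refine S.side_rd hk (fun p hp => ?_) hC _ ?_
    · have := S.pA.lt p (List.mem_filter.1 hp).1
      omega
    · rintro a b ⟨h1, h2⟩
      rcases (S.adj a b).1 h1 with ⟨p, q, h3, rfl, rfl⟩ | h3
      · refine Or.inr (Or.inr ⟨p, q, ?_, rfl, rfl⟩)
        have k1 : ∀ p' q', (p', q') ∈ A → s(φ p', φ q') ≠ s(x, y) → (p', q') ∈ delL (u, v) A := by
          intro p' q' h4 h5
          refine List.mem_filter.2 ⟨h4, ?_⟩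
          simp only [Bool.not_eq_true', Bool.eq_false_iff, ne_eq, Bool.and_eq_true, Nat.beq_eq]
          rintro ⟨rfl, rfl⟩
          exact h5 e.symm
        rcases h3 with h3 | h3
        · exact Or.inl (k1 p q h3 h2)
        · exact Or.inr (k1 q p h3 (by rwa [Sym2.eq_swap]))
      · exact Or.inl h3
  obtain ⟨p, q, h1 | h1, rfl, rfl⟩ := h
  · exact key p q h1 rfl
  · exact key q p h1 Sym2.eq_swap

theorem Setup.con_rd (S : Setup k A B φ ψ G) (hk : k ≤ 60) {x y : ℕ} (h : Im A φ x y) :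
    Rd ((si G).con x y) ∨ Rd ((si G).con y x) := by
  have key : ∀ u v, (u, v) ∈ A → Rd ((si G).con (φ u) (φ v)) := by
    intro u v huv
    obtain ⟨-, C, hC⟩ := S.pA.dc _ huv
    have hlt := S.pA.lt _ huv
    simp only at hlt
    have hr : ∀ p, ren (φ u) (φ v) (φ p) = φ (rn u v p) := by
      intro p
      rw [rn_eq]
      unfold ren
      by_cases e : p = v
      · simp [e]
      · rw [if_neg e, if_neg (fun e' => e (S.iφ e'))]
    refine S.side_rd hk (fun p hp => ?_) hC _ ?_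
    · obtain ⟨q, hq, rfl⟩ := List.mem_map.1 hp
      have := S.pA.lt q hq
      simp only [rn_eq, ren]
      split_ifs <;> omega
    · rintro a b ⟨-, p', q', h1, rfl, rfl⟩
      rcases (S.adj p' q').1 h1 with ⟨p, q, h3, rfl, rfl⟩ | h3
      · refine Or.inr (Or.inr ⟨rn u v p, rn u v q, ?_, (hr p).symm, (hr q).symm⟩)
        rcases h3 with h3 | h3
        · exact Or.inl (List.mem_map.2 ⟨_, h3, rfl⟩)
        · exact Or.inr (List.mem_map.2 ⟨_, h3, rfl⟩)
      · have e1 : p' ≠ φ v := fun e => S.notB hlt.2.1 (e ▸ h3)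
        have e2 : q' ≠ φ v := fun e => S.notB hlt.2.1 (e ▸ h3.symm)
        unfold ren
        rw [if_neg e1, if_neg e2]
        exact Or.inl h3
  obtain ⟨p, q, h1 | h1, rfl, rfl⟩ := h
  · exact Or.inl (key p q h1)
  · exact Or.inr (key q p h1)

theorem Setup.tri_aux (S : Setup k A B φ ψ G) {p y z : ℕ} (hp : k ≤ p) (h1 : s(φ p, y) ∈ G.E)
    (h2 : s(y, z) ∈ G.E) (h3 : s(z, φ p) ∈ G.E) : False := by
  obtain ⟨q, a1, rfl⟩ := S.nbrA hp h1
  obtain ⟨r, a2, rfl⟩ := S.nbrA hp (Sym2.eq_swap ▸ h3)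
  rcases (S.adj _ _).1 h2 with ⟨q', r', a3, e1, e2⟩ | ⟨q', r', a3, e1, e2⟩
  · obtain rfl := S.iφ e1
    obtain rfl := S.iφ e2
    exact S.pA.tri _ _ _ a1 a3 a2.symm
  · rcases (S.pB.adj a3).2.2.2 with h | h
    · exact S.s2 q' h q (S.pA.adj a1).2.1 e1
    · exact S.s2 r' h r (S.pA.adj a2).2.1 e2

theorem Setup.tri_side (S : Setup k A B φ ψ G) {x y z : ℕ} (h : Im A φ x y) (h1 : s(x, y) ∈ G.E)
    (h2 : s(y, z) ∈ G.E) (h3 : s(z, x) ∈ G.E) : False := by
  obtain ⟨p, q, a1, rfl, rfl⟩ := h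
  rcases (S.pA.adj a1).2.2.2 with h | h
  · exact S.tri_aux h h1 h2 h3
  · exact S.tri_aux h h2 h3 h1

theorem T3_inj {φ : ℕ → ℕ} (hφ : Function.Injective φ) (a b c : ℕ) :
    ∃ a' b' c', ∀ x, T3 a b c (φ x) → T3 a' b' c' x := by
  obtain ⟨g, hg⟩ := hφ.hasLeftInverse
  refine ⟨g a, g b, g c, ?_⟩
  rintro x (rfl | rfl | rfl)
  · exact Or.inl (hg x).symm
  · exact Or.inr (Or.inl (hg x).symm)
  · exact Or.inr (Or.inr (hg x).symm)

theorem Setup.deg_side (S : Setup k A B φ ψ G) {v y : ℕ} (h : Im A φ v y) (a b c : ℕ) :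
    ¬ ∀ x, s(v, x) ∈ G.E → T3 a b c x := by
  obtain ⟨p, q, a1, rfl, rfl⟩ := h
  intro hT
  by_cases hp : k ≤ p
  · obtain ⟨a', b', c', h'⟩ := T3_inj S.iφ a b c
    exact S.pA.deg4 p q hp a1 a' b' c' fun x hx =>
      h' x (hT _ ((S.adj _ _).2 (Or.inl ⟨p, x, hx, rfl, rfl⟩)))
  · obtain ⟨t, ht, e⟩ := S.t1 p (by omega)
    obtain ⟨x1, x2, n1, b1, b2⟩ := S.pA.deg2 p (by omega)
    obtain ⟨y1, y2, n2, d1, d2⟩ := S.pB.deg2 t ht
    have f1 := hT _ ((S.adj _ _).2 (Or.inl ⟨p, x1, b1, rfl, rfl⟩))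
    have f2 := hT _ ((S.adj _ _).2 (Or.inl ⟨p, x2, b2, rfl, rfl⟩))
    have f3 := hT _ ((S.adj _ _).2 (Or.inr ⟨t, y1, d1, e.symm, rfl⟩))
    have f4 := hT _ ((S.adj _ _).2 (Or.inr ⟨t, y2, d2, e.symm, rfl⟩))
    have g1 : φ x1 ≠ φ x2 := fun e => n1 (S.iφ e)
    have g2 : ψ y1 ≠ ψ y2 := fun e => n2 (S.iψ e)
    have k1 : k ≤ x1 := by have := (S.pA.adj b1).2.2.2; omega
    have k2 : k ≤ x2 := by have := (S.pA.adj b2).2.2.2; omega
    have g3 := S.s1 x1 k1 y1 (S.pB.adj d1).2.1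
    have g4 := S.s1 x1 k1 y2 (S.pB.adj d2).2.1
    have g5 := S.s1 x2 k2 y1 (S.pB.adj d1).2.1
    have g6 := S.s1 x2 k2 y2 (S.pB.adj d2).2.1
    unfold T3 at f1 f2 f3 f4
    omega

/-- walks in `G` avoiding `X` -/
def PG (G : MG) (X : Finset ℕ) : ℕ → ℕ → Prop :=
  ReflTransGen fun a b => a ∈ {x | x ∈ G.V ∧ x ∉ X} ∧ b ∈ {x | x ∈ G.V ∧ x ∉ X} ∧ s(a, b) ∈ G.E

theorem PG.symm {X : Finset ℕ} {a b : ℕ} (h : PG G X a b) : PG G X b a :=
  rtg_symm (fun _ _ h => ⟨h.2.1, h.1, by rw [Sym2.eq_swap]; exact h.2.2⟩) h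

def pull (φ : ℕ → ℕ) (X : Finset ℕ) : Finset ℕ := (Finset.range 60).filter (fun p => φ p ∈ X)

theorem Setup.path (S : Setup k A B φ ψ G) {X : Finset ℕ} {p q : ℕ} (h : PA A (pull φ X) p q) :
    PG G X (φ p) (φ q) := by
  refine ReflTransGen.lift φ (fun a b hab => ?_) _ _ h
  obtain ⟨h1, h2, h3⟩ := hab
  have h4 := S.pA.adj h3
  have h5 : s(φ a, φ b) ∈ G.E := (S.adj _ _).2 (Or.inl ⟨a, b, h3, rfl, rfl⟩)
  exact ⟨⟨MG.left_mem h5, fun h => h1 (Finset.mem_filter.2 ⟨Finset.mem_range.2 h4.1, h⟩)⟩,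
    ⟨MG.right_mem h5, fun h => h2 (Finset.mem_filter.2 ⟨Finset.mem_range.2 h4.2.1, h⟩)⟩, h5⟩

theorem pull_card (hφ : Function.Injective φ) (X : Finset ℕ) : (pull φ X).card ≤ X.card :=
  Finset.card_le_card_of_injOn φ (fun _ hp => (Finset.mem_filter.1 hp).2) hφ.injOn

theorem Setup.to_term (S : Setup k A B φ ψ G) (hk : k ≤ 60) {X : Finset ℕ} (hX : X.card < k)
    {x y : ℕ} (h : Im A φ x y) (hx : x ∉ X) : ∃ t < k, φ t ∉ X ∧ PG G X (φ t) x := by
  obtain ⟨p, q, a1, rfl, rfl⟩ := h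
  obtain ⟨t, h1, h2, h3⟩ := S.pA.c1 (pull φ X) (lt_of_le_of_lt (pull_card S.iφ X) hX) p q a1
    (fun h => hx (Finset.mem_filter.1 h).2)
  exact ⟨t, h1, fun h => h2 (Finset.mem_filter.2 ⟨Finset.mem_range.2 (by omega), h⟩), S.path h3⟩

theorem Setup.terms (S : Setup k A B φ ψ G) {X : Finset ℕ}
    (hX : ((pull φ X).filter (fun y => k ≤ y)).card ≤ 1) {t t' : ℕ} (ht : t < k) (ht' : t' < k)
    (h : φ t ∉ X) (h' : φ t' ∉ X) : PG G X (φ t) (φ t') :=
  S.path (S.pA.c2 _ hX t t' ht ht' (fun e => h (Finset.mem_filter.1 e).2)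
    (fun e => h' (Finset.mem_filter.1 e).2))

theorem Setup.conn (S : Setup k A B φ ψ G) (hk : k ≤ 4) (X : Finset ℕ) (hX : X.card < k) :
    ConnOn G {x | x ∈ G.V ∧ x ∉ X} := by
  classical
  have hsum : ((pull φ X).filter (fun y => k ≤ y)).card +
      ((pull ψ X).filter (fun y => k ≤ y)).card ≤ X.card := by
    rw [← Finset.card_image_of_injective ((pull φ X).filter (fun y => k ≤ y)) S.iφ,
      ← Finset.card_image_of_injective ((pull ψ X).filter (fun y => k ≤ y)) S.iψ,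
      ← Finset.card_union_of_disjoint]
    · refine Finset.card_le_card fun x hx => ?_
      rcases Finset.mem_union.1 hx with hx | hx <;>
        obtain ⟨p, hp, rfl⟩ := Finset.mem_image.1 hx <;>
        exact (Finset.mem_filter.1 (Finset.mem_filter.1 hp).1).2
    · rw [Finset.disjoint_left]
      intro x h1 h2
      obtain ⟨p, hp, rfl⟩ := Finset.mem_image.1 h1
      obtain ⟨q, hq, e⟩ := Finset.mem_image.1 h2
      exact S.s1 p (Finset.mem_filter.1 hp).2 q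
        (Finset.mem_range.1 (Finset.mem_filter.1 (Finset.mem_filter.1 hq).1).1) e.symm
  have hT : ∀ t < k, ∀ t' < k, φ t ∉ X → φ t' ∉ X → PG G X (φ t) (φ t') := by
    intro t ht t' ht' h h'
    by_cases e : ((pull φ X).filter (fun y => k ≤ y)).card ≤ 1
    · exact S.terms e ht ht' h h'
    · obtain ⟨u, hu, e1⟩ := S.t1 t ht
      obtain ⟨u', hu', e2⟩ := S.t1 t' ht'
      rw [e1] at h ⊢
      rw [e2] at h' ⊢
      exact S.symm.terms (by omega) hu hu' h h'
  have hall : ∀ x ∈ G.V, x ∉ X → ∃ t < k, φ t ∉ X ∧ PG G X (φ t) x := by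
    intro x hx hxX
    obtain ⟨y, hy⟩ := S.hV x hx
    rcases (S.adj x y).1 hy with h | h
    · exact S.to_term (by omega) hX h hxX
    · obtain ⟨t, h1, h2, h3⟩ := S.symm.to_term (by omega) hX h hxX
      obtain ⟨u, hu, e⟩ := S.t2 t h1
      exact ⟨u, hu, e ▸ h2, e ▸ h3⟩
  rintro x ⟨hx, hxX⟩ y ⟨hy, hyX⟩
  obtain ⟨t, a1, a2, a3⟩ := hall x hx hxX
  obtain ⟨t', b1, b2, b3⟩ := hall y hy hyX
  exact (a3.symm.trans (hT t a1 t' b1 a2 b2)).trans b3

theorem Setup.main (S : Setup k A B φ ψ G) (hk2 : 2 ≤ k) (hk : k ≤ 4) (hN : G.E.Nodup) :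
    MinNonRed G ∧ ∀ X : Finset ℕ, X.card < k → ConnOn G {x | x ∈ G.V ∧ x ∉ X} := by
  classical
  refine ⟨⟨⟨?_, ?_, fun v => ?_⟩, not_reducible hN ?_ ?_, ?_⟩, S.conn hk⟩
  · obtain ⟨x, y, hxy, h1, h2⟩ := S.pA.deg2 0 (by omega)
    have e1 : s(φ 0, φ x) ∈ G.E := (S.adj _ _).2 (Or.inl ⟨0, x, h1, rfl, rfl⟩)
    have e2 : s(φ 0, φ y) ∈ G.E := (S.adj _ _).2 (Or.inl ⟨0, y, h2, rfl, rfl⟩)
    have : 1 < G.E.toFinset.card := Finset.one_lt_card.2
      ⟨_, Multiset.mem_toFinset.2 e1, _, Multiset.mem_toFinset.2 e2, by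
        intro e
        rcases Sym2.eq_iff.1 e with ⟨-, h⟩ | ⟨h, -⟩
        · exact hxy (S.iφ h)
        · exact MG.ne_of_mem e2 h⟩
    exact this.trans_le (Multiset.toFinset_card_le _)
  · simpa using S.conn hk ∅ (by simp; omega)
  · simpa using S.conn hk {v} (by simp; omega)
  · intro x y z h1 h2 h3
    rcases (S.adj x y).1 h1 with h | h
    · exact S.tri_side h h1 h2 h3
    · exact S.symm.tri_side h h1 h2 h3
  · intro v hv a b c
    obtain ⟨y, hy⟩ := S.hV v hv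
    rcases (S.adj v y).1 hy with h | h
    · exact S.deg_side h a b c
    · exact S.symm.deg_side h a b c
  · rintro H hm hi ⟨h2, hr⟩
    have : Rd (si H) := by
      refine minors_red hN S.hV (fun u v h => ?_) (fun u v h => ?_) hm hi
      · rcases (S.adj u v).1 h with h | h
        · exact S.del_rd (by omega) h
        · exact S.symm.del_rd (by omega) h
      · rcases (S.adj u v).1 h with h | h
        · exact S.con_rd (by omega) h
        · exact S.symm.con_rd (by omega) h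
    obtain ⟨n, hn⟩ := this
    exact hr (reducible_of_red n H h2 hn)

theorem shift_lt (σ : Equiv.Perm (Fin k)) {x : ℕ} (h : x < k) : shift k σ x < k := by
  rw [shift, dif_pos h]
  exact (σ _).2

theorem shift_ge (σ : Equiv.Perm (Fin k)) {x : ℕ} (h : k ≤ x) : shift k σ x = x + 100 := by
  rw [shift, dif_neg (by omega)]

theorem shift_inj (σ : Equiv.Perm (Fin k)) : Function.Injective (shift k σ) := by
  intro x y e
  by_cases hx : x < k <;> by_cases hy : y < k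
  · rw [shift, shift, dif_pos hx, dif_pos hy] at e
    simpa using σ.injective (Fin.ext e)
  · have := shift_lt σ hx
    rw [e, shift_ge σ (by omega)] at this
    omega
  · have := shift_lt σ hy
    rw [← e, shift_ge σ (by omega)] at this
    omega
  · rw [shift_ge σ (by omega), shift_ge σ (by omega)] at e
    omega

def idl (x : ℕ) : ℕ := if x < 100 then x else x + 100

theorem glue_main (hk2 : 2 ≤ k) (hk : k ≤ 4) (pA : Piece k A) (pB : Piece k B)
    (σ : Equiv.Perm (Fin k)) : MinNonRed (glue k σ A B) ∧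
      ∀ X : Finset ℕ, X.card < k → ConnOn (glue k σ A B) {x | x ∈ (glue k σ A B).V ∧ x ∉ X} := by
  have hi : ∀ x < 100, idl x = x := fun x hx => if_pos hx
  have iφ : Function.Injective idl := by
    intro x y e
    unfold idl at e
    split_ifs at e <;> omega
  have S : Setup k A B idl (shift k σ) (glue k σ A B) := by
    refine ⟨pA, pB, iφ, shift_inj σ, fun x y => ?_, fun t ht => ?_, fun t ht => ?_, ?_, ?_,
      fun x hx => ofList_V hx⟩
    · rw [glue, ofList_E]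
      simp only [List.mem_append, List.mem_map, Prod.mk.injEq]
      constructor
      · rintro ⟨-, (h | ⟨p, hp, rfl, rfl⟩) | (h | ⟨p, hp, rfl, rfl⟩)⟩
        · have := pA.lt _ h
          simp only at this
          exact Or.inl ⟨x, y, Or.inl h, hi x (by omega), hi y (by omega)⟩
        · exact Or.inr ⟨p.1, p.2, Or.inl hp, rfl, rfl⟩
        · have := pA.lt _ h
          simp only at this
          exact Or.inl ⟨x, y, Or.inr h, hi x (by omega), hi y (by omega)⟩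
        · exact Or.inr ⟨p.2, p.1, Or.inr hp, rfl, rfl⟩
      · rintro (⟨p, q, h, rfl, rfl⟩ | ⟨p, q, h, rfl, rfl⟩)
        · have := pA.adj h
          rw [hi p (by omega), hi q (by omega)]
          exact ⟨this.2.2.1, h.imp Or.inl Or.inl⟩
        · refine ⟨fun e => (pB.adj h).2.2.1 (shift_inj σ e), ?_⟩
          rcases h with h | h
          · exact Or.inl (Or.inr ⟨_, h, rfl, rfl⟩)
          · exact Or.inr (Or.inr ⟨_, h, rfl, rfl⟩)
    · refine ⟨(σ.symm ⟨t, ht⟩ : ℕ), (σ.symm _).2, ?_⟩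
      rw [hi t (by omega), shift, dif_pos (σ.symm _).2]
      simp
    · exact ⟨_, shift_lt σ ht, (hi _ (by have := shift_lt σ ht; omega)).symm⟩
    · intro z hz x hx
      by_cases e : x < k
      · have := shift_lt σ e
        unfold idl
        split_ifs <;> omega
      · rw [shift_ge σ (by omega)]
        unfold idl
        split_ifs <;> omega
    · intro z hz x hx
      rw [shift_ge σ hz, hi x (by omega)]
      omega
  refine S.main hk2 hk ?_
  simp only [glue, ofList, Multiset.coe_nodup]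
  refine List.Nodup.map_on ?_ (List.Nodup.filter _ ?_)
  · rintro ⟨p, q⟩ h1 ⟨p', q'⟩ h2 e
    have h1' := (List.mem_filter.1 h1).1
    have h2' := (List.mem_filter.1 h2).1
    have key : ∀ e ∈ A ++ B.map (fun p => (shift k σ p.1, shift k σ p.2)), e.1 < e.2 := by
      intro e he
      rcases List.mem_append.1 he with he | he
      · exact (pA.lt e he).1
      · obtain ⟨r, hr, rfl⟩ := List.mem_map.1 he
        have := pB.lt r hr
        simp only
        rw [shift_ge σ this.2.1]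
        by_cases e : r.1 < k
        · have := shift_lt σ e
          omega
        · rw [shift_ge σ (by omega)]
          omega
    have k1 := key _ h1'
    have k2 := key _ h2'
    simp only at k1 k2
    rcases Sym2.eq_iff.1 e with ⟨rfl, rfl⟩ | ⟨rfl, rfl⟩
    · rfl
    · omega
  · rw [List.nodup_append]
    refine ⟨pA.nodup, List.Nodup.map ?_ pB.nodup, ?_⟩
    · intro p q e
      simp only [Prod.mk.injEq] at e
      exact Prod.ext (shift_inj σ e.1) (shift_inj σ e.2)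
    · intro a ha b hb e
      obtain ⟨r, hr, rfl⟩ := List.mem_map.1 hb
      have h1 := pA.lt a ha
      have h2 := pB.lt r hr
      rw [e] at h1
      simp only at h1
      rw [shift_ge σ h2.2.1] at h1
      omega

end Pool.Agent.P.MP_5af56b_co
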