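import Mathlib

namespace Pool.Agent.P.MP_5af56b_co

open Relation

/-- simple graphs with finitely many edges, isolated vertices ignored -/
structure SG where
  A : ℕ → ℕ → Prop
  symm : ∀ x y, A x y → A y x
  irr : ∀ x, ¬ A x x
  bdd : ∃ N, ∀ x y, A x y → x < N

def T3 (a b c x : ℕ) : Prop := x = a ∨ x = b ∨ x = c

inductive Red : ℕ → SG → Prop
  | nil (n : ℕ) (G : SG) : (∀ x y, ¬ G.A x y) → Red n G
  | elim (n : ℕ) (G G' : SG) (v a b c : ℕ) : (∀ x, G.A v x → T3 a b c x) →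
      (∀ x y, G.A x y → x ≠ v → y ≠ v → G'.A x y) →
      (∀ x y, G.A v x → G.A v y → x ≠ y → G'.A x y) → Red n G' → Red (n + 1) G
  | dy (n : ℕ) (G G' : SG) (a b c w : ℕ) : (∀ x, ¬ G.A w x) →
      (∀ x y, G.A x y → ¬ (T3 a b c x ∧ T3 a b c y) → G'.A x y) →
      (∀ x, T3 a b c x → G'.A w x) → Red n G' → Red (n + 1) G

theorem Red.succ {n : ℕ} {G : SG} (h : Red n G) : Red (n + 1) G := by
  induction h with
  | nil n G h => exact Red.nil _ G h
  | elim n G G' v a b c h1 h2 h3 _ ih => exact Red.elim _ G G' v a b c h1 h2 h3 ih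
  | dy n G G' a b c w h1 h2 h3 _ ih => exact Red.dy _ G G' a b c w h1 h2 h3 ih

def SG.elim (G : SG) (v : ℕ) : SG where
  A x y := x ≠ y ∧ x ≠ v ∧ y ≠ v ∧ (G.A x y ∨ (G.A v x ∧ G.A v y))
  symm := by
    rintro x y ⟨h1, h2, h3, h4⟩
    refine ⟨h1.symm, h3, h2, ?_⟩
    rcases h4 with h4 | h4
    · exact Or.inl (G.symm _ _ h4)
    · exact Or.inr ⟨h4.2, h4.1⟩
  irr := fun x h => h.1 rfl
  bdd := by
    obtain ⟨N, hN⟩ := G.bdd
    refine ⟨N, ?_⟩
    rintro x y ⟨-, -, -, h4 | h4⟩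
    · exact hN _ _ h4
    · exact hN _ _ (G.symm _ _ h4.1)

def SG.dy (G : SG) (a b c w : ℕ) : SG where
  A x y := x ≠ y ∧ ((G.A x y ∧ ¬ (T3 a b c x ∧ T3 a b c y)) ∨ (x = w ∧ T3 a b c y) ∨
    (y = w ∧ T3 a b c x))
  symm := by
    rintro x y ⟨h1, h2 | h2 | h2⟩
    · exact ⟨h1.symm, Or.inl ⟨G.symm _ _ h2.1, fun h => h2.2 ⟨h.2, h.1⟩⟩⟩
    · exact ⟨h1.symm, Or.inr (Or.inr h2)⟩
    · exact ⟨h1.symm, Or.inr (Or.inl h2)⟩
  irr := fun x h => h.1 rfl
  bdd := by
    obtain ⟨N, hN⟩ := G.bdd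
    refine ⟨N + a + b + c + w + 1, ?_⟩
    rintro x y ⟨-, h2 | h2 | h2⟩
    · have := hN _ _ h2.1; omega
    · omega
    · rcases h2.2 with h | h | h <;> omega

theorem red_elim {n : ℕ} {G : SG} {v a b c : ℕ} (h1 : ∀ x, G.A v x → T3 a b c x)
    (h : Red n (G.elim v)) : Red (n + 1) G := by
  refine Red.elim n G (G.elim v) v a b c h1 ?_ ?_ h
  · intro x y hxy hx hy
    exact ⟨fun e => G.irr x (e ▸ hxy), hx, hy, Or.inl hxy⟩
  · intro x y hx hy hxy
    exact ⟨hxy, fun e => G.irr v (e ▸ hx), fun e => G.irr v (e ▸ hy), Or.inr ⟨hx, hy⟩⟩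

theorem red_dy {n : ℕ} {G : SG} {a b c w : ℕ} (h1 : ∀ x, ¬ G.A w x) (hw : ¬ T3 a b c w)
    (h : Red n (G.dy a b c w)) : Red (n + 1) G := by
  refine Red.dy n G (G.dy a b c w) a b c w h1 ?_ ?_ h
  · intro x y hxy hT
    exact ⟨fun e => G.irr x (e ▸ hxy), Or.inl ⟨hxy, hT⟩⟩
  · intro x hx
    exact ⟨fun e => hw (e ▸ hx), Or.inr (Or.inl ⟨rfl, hx⟩)⟩

/-- a step inside a branch set -/
def FR (G : SG) (U : Set ℕ) (f : ℕ → ℕ) (a b : ℕ) : Prop :=
  a ∈ U ∧ b ∈ U ∧ f a = f b ∧ G.A a b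

structure Model (H G : SG) (U : Set ℕ) (f : ℕ → ℕ) : Prop where
  conn : ∀ u ∈ U, ∀ v ∈ U, f u = f v → ReflTransGen (FR G U f) u v
  edge : ∀ x y, H.A x y → ∃ u ∈ U, ∃ v ∈ U, f u = x ∧ f v = y ∧ G.A u v

def SMinor (H G : SG) : Prop := ∃ U f, Model H G U f

theorem FR.symm {G : SG} {U : Set ℕ} {f : ℕ → ℕ} {a b : ℕ} (h : FR G U f a b) : FR G U f b a :=
  ⟨h.2.1, h.1, h.2.2.1.symm, G.symm _ _ h.2.2.2⟩

theorem rtg_symm {r : ℕ → ℕ → Prop} (hr : ∀ a b, r a b → r b a) {a b : ℕ}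
    (h : ReflTransGen r a b) : ReflTransGen r b a := by
  induction h with
  | refl => exact ReflTransGen.refl
  | tail _ h2 ih => exact ReflTransGen.head (hr _ _ h2) ih

/-- paths in a fibre keep the value of `f` -/
theorem rtg_fib {G : SG} {U : Set ℕ} {f : ℕ → ℕ} {s : ℕ → ℕ → Prop} (g : ℕ → ℕ) {u v : ℕ}
    (h : ReflTransGen (FR G U f) u v)
    (hs : ∀ a b, FR G U f a b → f a = f u → ReflTransGen s (g a) (g b)) :
    f v = f u ∧ ReflTransGen s (g u) (g v) := by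
  induction h with
  | refl => exact ⟨rfl, ReflTransGen.refl⟩
  | tail _ h2 ih => exact ⟨h2.2.2.1.symm.trans ih.1, ih.2.trans (hs _ _ h2 ih.1)⟩

theorem sminor_of_sub {H G : SG} (h : ∀ x y, H.A x y → G.A x y) : SMinor H G := by
  refine ⟨Set.univ, id, ⟨?_, ?_⟩⟩
  · intro u _ v _ e
    have : u = v := e
    subst this
    exact ReflTransGen.refl
  · intro x y hxy
    exact ⟨x, trivial, y, trivial, rfl, rfl, h x y hxy⟩

/-- the new vertex of a Delta-Y step can be absorbed into the branch set of `p` -/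
theorem sminor_center {H G G' : SG} {U : Set ℕ} {f : ℕ → ℕ} (M : Model H G U f) {a b c w p : ℕ}
    (h1 : ∀ x, ¬ G.A w x) (h2 : ∀ x y, G.A x y → ¬ (T3 a b c x ∧ T3 a b c y) → G'.A x y)
    (h3 : ∀ x, T3 a b c x → G'.A w x) (hp : T3 a b c p) (hpU : p ∈ U)
    (hc : ∀ s t, T3 a b c s → T3 a b c t → s ∈ U → t ∈ U → G.A s t → f s = f p ∨ f t = f p) :
    SMinor H G' := by
  classical
  have hTw : ∀ x, T3 a b c x → x ≠ w := fun x hx e => G'.irr w (e ▸ h3 x hx)
  have hAw : ∀ x y, G.A x y → x ≠ w ∧ y ≠ w := fun x y hxy =>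
    ⟨fun e => h1 y (e ▸ hxy), fun e => h1 x (e ▸ G.symm _ _ hxy)⟩
  set f' : ℕ → ℕ := fun x => if x = w then f p else f x with hf'
  have hfw : f' w = f p := by simp [hf']
  have hfx : ∀ x, x ≠ w → f' x = f x := fun x hx => by simp [hf', hx]
  set U' : Set ℕ := {x | x ∈ U ∨ x = w} with hU'
  have hwU : w ∈ U' := Or.inr rfl
  have key : ∀ u ∈ U, ∀ v ∈ U, f u = f v → ReflTransGen (FR G' U' f') u v := by
    intro u hu v hv e
    refine (rtg_fib (s := FR G' U' f') id (M.conn u hu v hv e) ?_).2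
    rintro s t ⟨hs, ht, hst, hA⟩ -
    obtain ⟨hsw, htw⟩ := hAw _ _ hA
    by_cases hT : T3 a b c s ∧ T3 a b c t
    · have e1 : f s = f p := by
        rcases hc s t hT.1 hT.2 hs ht hA with h | h
        · exact h
        · exact hst.trans h
      have s1 : FR G' U' f' s w :=
        ⟨Or.inl hs, hwU, by rw [hfw, hfx s hsw, e1], G'.symm _ _ (h3 s hT.1)⟩
      have s2 : FR G' U' f' w t :=
        ⟨hwU, Or.inl ht, by rw [hfw, hfx t htw, ← hst, e1], h3 t hT.2⟩
      exact (ReflTransGen.single s1).tail s2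
    · exact ReflTransGen.single
        ⟨Or.inl hs, Or.inl ht, by simp only [id]; rw [hfx s hsw, hfx t htw, hst], h2 s t hA hT⟩
  have hwp : FR G' U' f' w p := ⟨hwU, Or.inl hpU, by rw [hfw, hfx p (hTw p hp)], h3 p hp⟩
  refine ⟨U', f', ⟨?_, ?_⟩⟩
  · intro u hu v hv e
    by_cases huw : u = w <;> by_cases hvw : v = w
    · rw [huw, hvw]
    · have hvU : v ∈ U := hv.resolve_right hvw
      rw [huw, hfw, hfx v hvw] at e
      rw [huw]
      exact ReflTransGen.head hwp (key p hpU v hvU e)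
    · have huU : u ∈ U := hu.resolve_right huw
      rw [hvw, hfw, hfx u huw] at e
      rw [hvw]
      exact (key u huU p hpU e).tail hwp.symm
    · rw [hfx u huw, hfx v hvw] at e
      exact key u (hu.resolve_right huw) v (hv.resolve_right hvw) e
  · intro x y hxy
    obtain ⟨u, hu, v, hv, rfl, rfl, hA⟩ := M.edge x y hxy
    obtain ⟨huw, hvw⟩ := hAw _ _ hA
    by_cases hT : T3 a b c u ∧ T3 a b c v
    · rcases hc u v hT.1 hT.2 hu hv hA with h | h
      · exact ⟨w, hwU, v, Or.inl hv, by rw [hfw, h], hfx v hvw, h3 v hT.2⟩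
      · exact ⟨u, Or.inl hu, w, hwU, hfx u huw, by rw [hfw, h], G'.symm _ _ (h3 u hT.1)⟩
    · exact ⟨u, Or.inl hu, v, Or.inl hv, hfx u huw, hfx v hvw, h2 u v hA hT⟩

theorem red_minor {n : ℕ} {G : SG} (h : Red n G) : ∀ H : SG, SMinor H G → Red n H := by
  classical
  induction h with
  | nil n G h =>
    rintro H ⟨U, f, M⟩
    refine Red.nil n H fun x y hxy => ?_
    obtain ⟨u, -, v, -, -, -, hA⟩ := M.edge x y hxy
    exact h u v hA
  | elim n G G' v a b c h1 h2 h3 _ ih =>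
    rintro H ⟨U, f, M⟩
    by_cases hv : v ∈ U
    swap
    · refine (ih H ⟨U, f, ⟨?_, ?_⟩⟩).succ
      · intro u hu u' hu' e
        refine (rtg_fib (s := FR G' U f) id (M.conn u hu u' hu' e) ?_).2
        rintro s t ⟨hs, ht, hst, hA⟩ -
        exact ReflTransGen.single
          ⟨hs, ht, hst, h2 s t hA (fun e => hv (e ▸ hs)) (fun e => hv (e ▸ ht))⟩
      · intro x y hxy
        obtain ⟨s, hs, t, ht, e1, e2, hA⟩ := M.edge x y hxy
        exact ⟨s, hs, t, ht, e1, e2, h2 s t hA (fun e => hv (e ▸ hs)) (fun e => hv (e ▸ ht))⟩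
    set U' : Set ℕ := {x | x ∈ U ∧ x ≠ v} with hU'
    by_cases hn : ∃ u0 ∈ U, f u0 = f v ∧ G.A v u0
    · obtain ⟨u0, hu0, e0, hA0⟩ := hn
      have hu0v : u0 ≠ v := fun e => G.irr v (e ▸ hA0)
      set g : ℕ → ℕ := fun x => if x = v then u0 else x with hg
      have hgv : g v = u0 := by simp [hg]
      have hgx : ∀ x, x ≠ v → g x = x := fun x hx => by simp [hg, hx]
      have hstep : ∀ t, FR G U f v t → ReflTransGen (FR G' U' f) u0 t := by
        rintro t ⟨-, ht, hst, hA⟩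
        have htv : t ≠ v := fun e => G.irr v (e ▸ hA)
        by_cases e : u0 = t
        · rw [e]
        · exact ReflTransGen.single ⟨⟨hu0, hu0v⟩, ⟨ht, htv⟩, e0.trans hst, h3 u0 t hA0 hA e⟩
      refine (ih H ⟨U', f, ⟨?_, ?_⟩⟩).succ
      · rintro u ⟨hu, huv⟩ u' ⟨hu', huv'⟩ e
        have := (rtg_fib (s := FR G' U' f) g (M.conn u hu u' hu' e) ?_).2
        · rwa [hgx u huv, hgx u' huv'] at this
        intro s t hst _
        by_cases hsv : s = v
        · subst hsv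
          have htv : t ≠ s := fun e => G.irr s (e ▸ hst.2.2.2)
          rw [hgv, hgx t htv]
          exact hstep t hst
        · by_cases htv : t = v
          · subst htv
            rw [hgv, hgx s hsv]
            exact rtg_symm (fun _ _ => FR.symm) (hstep s hst.symm)
          · rw [hgx s hsv, hgx t htv]
            exact ReflTransGen.single
              ⟨⟨hst.1, hsv⟩, ⟨hst.2.1, htv⟩, hst.2.2.1, h2 s t hst.2.2.2 hsv htv⟩
      · intro x y hxy
        obtain ⟨s, hs, t, ht, e1, e2, hA⟩ := M.edge x y hxy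
        have hne : x ≠ y := fun e => H.irr x (e ▸ hxy)
        by_cases hsv : s = v
        · subst hsv
          have htv : t ≠ s := fun e => G.irr s (e ▸ hA)
          refine ⟨u0, ⟨hu0, hu0v⟩, t, ⟨ht, htv⟩, e0.trans e1, e2, h3 u0 t hA0 hA ?_⟩
          intro e
          exact hne (by rw [← e1, ← e2, ← e, e0])
        · by_cases htv : t = v
          · subst htv
            refine ⟨s, ⟨hs, hsv⟩, u0, ⟨hu0, hu0v⟩, e1, e0.trans e2,
              h3 s u0 (G.symm _ _ hA) hA0 ?_⟩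
            intro e
            exact hne (by rw [← e1, ← e2, e, e0])
          · exact ⟨s, ⟨hs, hsv⟩, t, ⟨ht, htv⟩, e1, e2, h2 s t hA hsv htv⟩
    · have hn' : ∀ t, ¬ FR G U f v t := fun t ht => hn ⟨t, ht.2.1, ht.2.2.1.symm, ht.2.2.2⟩
      have hsing : ∀ u ∈ U, f u = f v → u = v := by
        intro u hu e
        rcases (M.conn v hv u hu e.symm).cases_head with h | ⟨t, ht, -⟩
        · exact h.symm
        · exact absurd ht (hn' t)
      have hnb : ∀ y, H.A (f v) y → ∃ t ∈ U, f t = y ∧ G.A v t := by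
        intro y hy
        obtain ⟨s, hs, t, ht, e1, e2, hA⟩ := M.edge _ _ hy
        exact ⟨t, ht, e2, hsing s hs e1 ▸ hA⟩
      refine red_elim (v := f v) (a := f a) (b := f b) (c := f c) ?_ (ih _ ⟨U', f, ⟨?_, ?_⟩⟩)
      · intro y hy
        obtain ⟨t, -, rfl, hA⟩ := hnb y hy
        rcases h1 t hA with h | h | h
        · exact Or.inl (by rw [h])
        · exact Or.inr (Or.inl (by rw [h]))
        · exact Or.inr (Or.inr (by rw [h]))
      · rintro u ⟨hu, -⟩ u' ⟨hu', -⟩ e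
        refine (rtg_fib (s := FR G' U' f) id (M.conn u hu u' hu' e) ?_).2
        intro s t hst _
        have hsv : s ≠ v := fun e => hn' t (e ▸ hst)
        have htv : t ≠ v := fun e => hn' s (e ▸ hst.symm)
        exact ReflTransGen.single
          ⟨⟨hst.1, hsv⟩, ⟨hst.2.1, htv⟩, hst.2.2.1, h2 s t hst.2.2.2 hsv htv⟩
      · rintro x y ⟨hxy, hx, hy, hA | ⟨hA1, hA2⟩⟩
        · obtain ⟨s, hs, t, ht, rfl, rfl, hB⟩ := M.edge x y hA
          have hsv : s ≠ v := fun e => hx (by rw [e])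
          have htv : t ≠ v := fun e => hy (by rw [e])
          exact ⟨s, ⟨hs, hsv⟩, t, ⟨ht, htv⟩, rfl, rfl, h2 s t hB hsv htv⟩
        · obtain ⟨s, hs, rfl, hB1⟩ := hnb x hA1
          obtain ⟨t, ht, rfl, hB2⟩ := hnb y hA2
          have hsv : s ≠ v := fun e => hx (by rw [e])
          have htv : t ≠ v := fun e => hy (by rw [e])
          exact ⟨s, ⟨hs, hsv⟩, t, ⟨ht, htv⟩, rfl, rfl,
            h3 s t hB1 hB2 (fun e => hxy (by rw [e]))⟩
  | dy n G G' a b c w h1 h2 h3 _ ih =>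
    rintro H ⟨U, f, M⟩
    by_cases hc : ∃ p, T3 a b c p ∧ p ∈ U ∧ ∀ s t, T3 a b c s → T3 a b c t → s ∈ U → t ∈ U →
        G.A s t → f s = f p ∨ f t = f p
    · obtain ⟨p, hp, hpU, hc⟩ := hc
      exact (ih H (sminor_center M h1 h2 h3 hp hpU hc)).succ
    by_cases hT : ∃ p, T3 a b c p ∧ p ∈ U
    swap
    · have hT' : ∀ s t, s ∈ U → ¬ (T3 a b c s ∧ T3 a b c t) := fun s t hs h => hT ⟨s, h.1, hs⟩
      refine (ih H ⟨U, f, ⟨?_, ?_⟩⟩).succ
      · intro u hu u' hu' e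
        refine (rtg_fib (s := FR G' U f) id (M.conn u hu u' hu' e) ?_).2
        rintro s t ⟨hs, ht, hst, hA⟩ -
        exact ReflTransGen.single ⟨hs, ht, hst, h2 s t hA (hT' s t hs)⟩
      · intro x y hxy
        obtain ⟨s, hs, t, ht, e1, e2, hA⟩ := M.edge x y hxy
        exact ⟨s, hs, t, ht, e1, e2, h2 s t hA (hT' s t hs)⟩
    have hall : (∀ s, T3 a b c s → s ∈ U) ∧
        ∀ s t, T3 a b c s → T3 a b c t → f s = f t → s = t := by
      push Not at hc
      obtain ⟨p, hp, hpU⟩ := hT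
      obtain ⟨s, t, hs, ht, hsU, htU, hA, e1, e2⟩ := hc p hp hpU
      have hst : s ≠ t := fun e => G.irr s (e ▸ hA)
      have hsp : s ≠ p := fun e => e1 (by rw [e])
      have htp : t ≠ p := fun e => e2 (by rw [e])
      have hall : ∀ z, T3 a b c z → z = p ∨ z = s ∨ z = t := by
        intro z hz
        unfold T3 at *
        omega
      have hfst : f s ≠ f t := by
        intro e
        obtain ⟨s', t', hs', ht', -, -, hA', e1', e2'⟩ := hc s hs hsU
        have hst' : s' ≠ t' := fun e => G.irr s' (e ▸ hA')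
        rcases hall s' hs' with h | h | h
        · rcases hall t' ht' with h' | h' | h'
          · exact hst' (h.trans h'.symm)
          · exact e2' (by rw [h'])
          · exact e2' (by rw [h', e])
        · exact e1' (by rw [h])
        · exact e1' (by rw [h, e])
      refine ⟨fun z hz => ?_, fun y z hy hz e => ?_⟩
      · rcases hall z hz with h | h | h <;> rw [h] <;> assumption
      · rcases hall y hy with h | h | h <;> rcases hall z hz with h' | h' | h' <;>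
          subst h <;> subst h' <;> first | rfl | (exfalso; omega)
    obtain ⟨N, hN⟩ := H.bdd
    set w' : ℕ := N + f a + f b + f c + 1 with hw'
    have hTw : ∀ x, T3 a b c x → x ≠ w := fun x hx e => G'.irr w (e ▸ h3 x hx)
    have hAw : ∀ x y, G.A x y → x ≠ w ∧ y ≠ w := fun x y hxy =>
      ⟨fun e => h1 y (e ▸ hxy), fun e => h1 x (e ▸ G.symm _ _ hxy)⟩
    set f' : ℕ → ℕ := fun x => if x = w then w' else f x with hf'
    have hfw : f' w = w' := by simp [hf']
    have hfx : ∀ x, x ≠ w → f' x = f x := fun x hx => by simp [hf', hx]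
    set U' : Set ℕ := {x | (x ∈ U ∧ x ≠ w ∧ f x ≠ w') ∨ x = w} with hU'
    have hwU : w ∈ U' := Or.inr rfl
    have hTf : ∀ y, T3 (f a) (f b) (f c) y → ∃ t, T3 a b c t ∧ f t = y := by
      rintro y (h | h | h)
      · exact ⟨a, Or.inl rfl, h.symm⟩
      · exact ⟨b, Or.inr (Or.inl rfl), h.symm⟩
      · exact ⟨c, Or.inr (Or.inr rfl), h.symm⟩
    have hTf' : ∀ t, T3 a b c t → T3 (f a) (f b) (f c) (f t) := by
      rintro t (h | h | h)
      · exact Or.inl (by rw [h])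
      · exact Or.inr (Or.inl (by rw [h]))
      · exact Or.inr (Or.inr (by rw [h]))
    have hw'T : ¬ T3 (f a) (f b) (f c) w' := by
      unfold T3
      omega
    have hTU : ∀ t, T3 a b c t → t ∈ U' := fun t ht =>
      Or.inl ⟨hall.1 t ht, hTw t ht, fun e => hw'T (e ▸ hTf' t ht)⟩
    refine red_dy (a := f a) (b := f b) (c := f c) (w := w') ?_ hw'T (ih _ ⟨U', f', ⟨?_, ?_⟩⟩)
    · intro x hx
      have := hN _ _ hx
      omega
    · rintro u (⟨hu, huw, huw'⟩ | hu) u' (⟨hu', huw2, huw2'⟩ | hu') e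
      · rw [hfx u huw, hfx u' huw2] at e
        refine (rtg_fib (s := FR G' U' f') id (M.conn u hu u' hu' e) ?_).2
        rintro s t ⟨hs, ht, hst, hA⟩ hsu
        obtain ⟨hsw, htw⟩ := hAw _ _ hA
        refine ReflTransGen.single ⟨Or.inl ⟨hs, hsw, by simp only [id]; rw [hsu]; exact huw'⟩,
          Or.inl ⟨ht, htw, by simp only [id]; rw [← hst, hsu]; exact huw'⟩,
          by simp only [id]; rw [hfx s hsw, hfx t htw, hst], h2 s t hA ?_⟩
        rintro ⟨a1, a2⟩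
        have := hall.2 s t a1 a2 hst
        exact G.irr s (this ▸ hA)
      · rw [hu', hfw, hfx u huw] at e
        exact absurd e huw'
      · rw [hu, hfw, hfx u' huw2] at e
        exact absurd e.symm huw2'
      · rw [hu, hu']
    · rintro x y ⟨hxy, ⟨hA, hT'⟩ | ⟨rfl, hy⟩ | ⟨rfl, hx⟩⟩
      · obtain ⟨s, hs, t, ht, rfl, rfl, hB⟩ := M.edge x y hA
        obtain ⟨hsw, htw⟩ := hAw _ _ hB
        have b1 := hN _ _ hA
        have b2 := hN _ _ (H.symm _ _ hA)
        exact ⟨s, Or.inl ⟨hs, hsw, by omega⟩, t, Or.inl ⟨ht, htw, by omega⟩, hfx s hsw, hfx t htw,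
          h2 s t hB fun h => hT' ⟨hTf' s h.1, hTf' t h.2⟩⟩
      · obtain ⟨t, ht, rfl⟩ := hTf y hy
        exact ⟨w, hwU, t, hTU t ht, hfw, hfx t (hTw t ht), h3 t ht⟩
      · obtain ⟨t, ht, rfl⟩ := hTf x hx
        exact ⟨t, hTU t ht, w, hwU, hfx t (hTw t ht), hfw, G'.symm _ _ (h3 t ht)⟩

end Pool.Agent.P.MP_5af56b_co
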