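import Pool.Agent.P.MP_5af56b_co.Defs
import Pool.Agent.P.MP_5af56b_co.Simple

namespace Pool.Agent.P.MP_5af56b_co

open Relation

theorem MG.ne_of_mem {G : MG} {x y : ℕ} (h : s(x, y) ∈ G.E) : x ≠ y := by
  intro e
  exact G.loopless _ h (by simp [e])

theorem MG.left_mem {G : MG} {x y : ℕ} (h : s(x, y) ∈ G.E) : x ∈ G.V := G.mem _ h x (by simp)

theorem MG.right_mem {G : MG} {x y : ℕ} (h : s(x, y) ∈ G.E) : y ∈ G.V := G.mem _ h y (by simp)

/-- underlying simple graph -/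
def si (G : MG) : SG where
  A x y := s(x, y) ∈ G.E
  symm := fun x y h => by rwa [Sym2.eq_swap]
  irr := fun x h => MG.ne_of_mem h rfl
  bdd := ⟨G.V.sup id + 1, fun x y h => Nat.lt_succ_of_le (Finset.le_sup (f := id) (MG.left_mem h))⟩

theorem Reducible.step {G H : MG} (h : Step G H) (hH : Reducible H) : Reducible G := by
  obtain ⟨K, h1, h2⟩ := hH
  exact ⟨K, ReflTransGen.head h h1, h2⟩

theorem first_step {G : MG} {S : Set ℕ} (h : ConnOn G S) {x y : ℕ} (hx : x ∈ S) (hy : y ∈ S)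
    (hxy : x ≠ y) : ∃ z, z ∈ S ∧ s(x, z) ∈ G.E := by
  rcases (h x hx y hy).cases_head with e | ⟨z, hz, -⟩
  · exact absurd e hxy
  · exact ⟨z, hz.2.1, hz.2.2⟩

/-- in a simple 2-connected graph a vertex with a neighbour has another neighbour -/
theorem second_nbr {G : MG} (hG : TwoConn G) (hN : G.E.Nodup) {v p : ℕ} (h : s(v, p) ∈ G.E) :
    ∃ q, q ≠ p ∧ s(v, q) ∈ G.E := by
  classical
  have : ∃ e ∈ G.E, e ≠ s(v, p) := by
    by_contra hc
    push Not at hc
    have h1 : G.E = Multiset.replicate (Multiset.card G.E) s(v, p) :=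
      Multiset.eq_replicate.2 ⟨rfl, hc⟩
    have h2 := Multiset.nodup_iff_count_le_one.1 hN s(v, p)
    rw [h1, Multiset.count_replicate_self] at h2
    have := hG.1
    omega
  obtain ⟨e, he, hne⟩ := this
  induction e using Sym2.ind with
  | h x y =>
  have hxy := MG.ne_of_mem he
  by_cases hx : x = v
  · subst hx
    exact ⟨y, fun e => hne (by rw [e]), he⟩
  by_cases hy : y = v
  · subst hy
    exact ⟨x, fun e => hne (by rw [e, Sym2.eq_swap]), by rwa [Sym2.eq_swap]⟩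
  have : ∃ q ∈ G.V, q ≠ v ∧ q ≠ p := by
    by_cases hxp : x = p
    · exact ⟨y, MG.right_mem he, hy, fun e => hxy (hxp.trans e.symm)⟩
    · exact ⟨x, MG.left_mem he, hx, hxp⟩
  obtain ⟨q, hq, hqv, hqp⟩ := this
  obtain ⟨z, hz, hz'⟩ := first_step (hG.2.2 p) (x := v) (y := q)
    ⟨MG.left_mem h, MG.ne_of_mem h⟩ ⟨hq, hqp⟩ hqv.symm
  exact ⟨z, hz.2, hz'⟩

theorem conn_elim {G H : MG} {v : ℕ} {S : Set ℕ} (hS : ConnOn G S)
    (h2 : ∀ x y, s(x, y) ∈ G.E → x ≠ v → y ≠ v → s(x, y) ∈ H.E)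
    (h3 : ∀ x y, s(v, x) ∈ G.E → s(v, y) ∈ G.E → x ≠ y → s(x, y) ∈ H.E) :
    ConnOn H {x | x ∈ S ∧ x ≠ v} := by
  rintro u ⟨hu, huv⟩ y ⟨hy, hyv⟩
  set r : ℕ → ℕ → Prop := fun a b => a ∈ {x | x ∈ S ∧ x ≠ v} ∧ b ∈ {x | x ∈ S ∧ x ≠ v} ∧
    s(a, b) ∈ H.E with hr
  have key : ∀ y, ReflTransGen (fun a b => a ∈ S ∧ b ∈ S ∧ s(a, b) ∈ G.E) u y →
      (y ≠ v → ReflTransGen r u y) ∧
      (y = v → ∃ z, z ∈ S ∧ s(v, z) ∈ G.E ∧ ReflTransGen r u z) := by
    intro y h
    induction h with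
    | refl => exact ⟨fun _ => ReflTransGen.refl, fun e => absurd e huv⟩
    | @tail b c _ hbc ih =>
      obtain ⟨hb, hc, hE⟩ := hbc
      by_cases hbv : b = v
      · obtain ⟨z, hz, hzE, hp⟩ := ih.2 hbv
        subst hbv
        have hcb : c ≠ b := (MG.ne_of_mem hE).symm
        refine ⟨fun _ => ?_, fun e => absurd e hcb⟩
        by_cases e : z = c
        · rw [← e]; exact hp
        · exact hp.tail ⟨⟨hz, (MG.ne_of_mem hzE).symm⟩, ⟨hc, hcb⟩, h3 z c hzE hE e⟩
      · refine ⟨fun hcv => (ih.1 hbv).tail ⟨⟨hb, hbv⟩, ⟨hc, hcv⟩, h2 b c hE hbv hcv⟩, fun e => ?_⟩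
        subst e
        exact ⟨b, hb, by rwa [Sym2.eq_swap], ih.1 hbv⟩
  exact (key y (hS u hu y hy)).1 hyv

theorem twoConn_elim {G H : MG} {v : ℕ} (hG : TwoConn G) (hV : H.V = G.V.erase v)
    (hc : 2 ≤ Multiset.card H.E)
    (h2 : ∀ x y, s(x, y) ∈ G.E → x ≠ v → y ≠ v → s(x, y) ∈ H.E)
    (h3 : ∀ x y, s(v, x) ∈ G.E → s(v, y) ∈ G.E → x ≠ y → s(x, y) ∈ H.E) : TwoConn H := by
  refine ⟨hc, ?_, fun x => ?_⟩
  · have := conn_elim hG.2.1 h2 h3
    convert this using 2
    ext y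
    simp [hV, and_comm]
  · have := conn_elim (hG.2.2 x) h2 h3
    convert this using 2
    ext y
    simp only [hV, Finset.mem_erase, Set.mem_ofPred_eq]
    tauto

theorem exists_series {G : MG} (hG : TwoConn G) (hN : G.E.Nodup) {v p q : ℕ} (hpq : p ≠ q)
    (hp : s(v, p) ∈ G.E) (hq : s(v, q) ∈ G.E) (hnb : ∀ x, s(v, x) ∈ G.E → x = p ∨ x = q) :
    ∃ H : MG, Step G H ∧ TwoConn H ∧ ∀ x y, s(x, y) ∈ H.E →
      x ≠ v ∧ y ≠ v ∧ (s(x, y) ∈ G.E ∨ s(x, y) = s(p, q)) := by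
  classical
  set R : Multiset (Sym2 ℕ) := G.E.filter (fun e => v ∉ e) with hR
  have hvp := MG.ne_of_mem hp
  have hvq := MG.ne_of_mem hq
  have hmem : ∀ e, e ∈ ({s(p, q)} + R : Multiset (Sym2 ℕ)) ↔ e = s(p, q) ∨ (e ∈ G.E ∧ v ∉ e) := by
    intro e
    simp [hR]
  let H : MG := ⟨G.V.erase v, {s(p, q)} + R, by
    intro e he x hx
    rcases (hmem e).1 he with rfl | ⟨h1, h2⟩
    · rcases Sym2.mem_iff.1 hx with rfl | rfl
      · exact Finset.mem_erase.2 ⟨hvp.symm, MG.right_mem hp⟩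
      · exact Finset.mem_erase.2 ⟨hvq.symm, MG.right_mem hq⟩
    · exact Finset.mem_erase.2 ⟨fun e' => h2 (e' ▸ hx), G.mem e h1 x hx⟩, by
    intro e he
    rcases (hmem e).1 he with rfl | ⟨h1, -⟩
    · simpa using hpq
    · exact G.loopless e h1⟩
  have hE : G.E = {s(v, p), s(v, q)} + R := by
    rw [← Multiset.filter_add_not (fun e => v ∈ e) G.E]
    congr 1
    refine (Multiset.Nodup.ext (hN.filter _) ?_).2 ?_
    · simp [hpq, hvq]
    · intro e
      induction e using Sym2.ind with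
      | h x y =>
      simp only [Multiset.mem_filter, Sym2.mem_iff, Multiset.insert_eq_cons, Multiset.mem_cons,
        Multiset.mem_singleton]
      constructor
      · rintro ⟨h1, rfl | rfl⟩
        · rcases hnb y h1 with rfl | rfl
          · exact Or.inl rfl
          · exact Or.inr rfl
        · rw [Sym2.eq_swap] at h1 ⊢
          rcases hnb x h1 with rfl | rfl
          · exact Or.inl rfl
          · exact Or.inr rfl
      · rintro (h | h)
        · refine ⟨h ▸ hp, ?_⟩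
          have : v ∈ s(x, y) := by rw [h]; simp
          simpa using this
        · refine ⟨h ▸ hq, ?_⟩
          have : v ∈ s(x, y) := by rw [h]; simp
          simpa using this
  refine ⟨H, Step.series G H p q v R (by simp [H]) ?_ hE rfl, ?_, ?_⟩
  · exact (Finset.insert_erase (MG.left_mem hp)).symm
  · refine twoConn_elim (v := v) hG rfl ?_ ?_ ?_
    · obtain ⟨z, hz, hz'⟩ := second_nbr hG hN (v := p) (p := v) (by rwa [Sym2.eq_swap])
      have : s(p, z) ∈ R := by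
        rw [hR, Multiset.mem_filter]
        refine ⟨hz', ?_⟩
        simp only [Sym2.mem_iff, not_or]
        exact ⟨hvp, hz.symm⟩
      have := Multiset.card_pos_iff_exists_mem.2 ⟨_, this⟩
      simp only [H, Multiset.card_add, Multiset.card_singleton]
      omega
    · intro x y h hx hy
      refine (hmem _).2 (Or.inr ⟨h, ?_⟩)
      simp only [Sym2.mem_iff, not_or]
      exact ⟨hx.symm, hy.symm⟩
    · intro x y hx hy hxy
      refine (hmem _).2 (Or.inl ?_)
      rcases hnb x hx with rfl | rfl <;> rcases hnb y hy with rfl | rfl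
      · exact absurd rfl hxy
      · rfl
      · exact Sym2.eq_swap
      · exact absurd rfl hxy
  · intro x y h
    have h1 := Finset.mem_erase.1 (MG.left_mem (G := H) h)
    have h2 := Finset.mem_erase.1 (MG.right_mem (G := H) h)
    refine ⟨h1.1, h2.1, ?_⟩
    rcases (hmem _).1 h with h | h
    · exact Or.inr h
    · exact Or.inl h.1

theorem exists_yDelta {G : MG} (hG : TwoConn G) (hN : G.E.Nodup) {v p q r : ℕ} (hpq : p ≠ q)
    (hqr : q ≠ r) (hrp : r ≠ p) (hp : s(v, p) ∈ G.E) (hq : s(v, q) ∈ G.E) (hr : s(v, r) ∈ G.E)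
    (hnb : ∀ x, s(v, x) ∈ G.E → T3 p q r x) :
    ∃ H : MG, Step G H ∧ TwoConn H ∧ ∀ x y, s(x, y) ∈ H.E →
      x ≠ v ∧ y ≠ v ∧ (s(x, y) ∈ G.E ∨ (s(v, x) ∈ G.E ∧ s(v, y) ∈ G.E)) := by
  classical
  set R : Multiset (Sym2 ℕ) := G.E.filter (fun e => v ∉ e) with hR
  have hvp := MG.ne_of_mem hp
  have hvq := MG.ne_of_mem hq
  have hvr := MG.ne_of_mem hr
  have hmem : ∀ e, e ∈ ({s(p, q), s(q, r), s(r, p)} + R : Multiset (Sym2 ℕ)) ↔
      (e = s(p, q) ∨ e = s(q, r) ∨ e = s(r, p)) ∨ (e ∈ G.E ∧ v ∉ e) := by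
    intro e
    simp [hR, or_assoc]
  let H : MG := ⟨G.V.erase v, {s(p, q), s(q, r), s(r, p)} + R, by
    intro e he x hx
    have a1 := Finset.mem_erase.2 ⟨hvp.symm, MG.right_mem hp⟩
    have a2 := Finset.mem_erase.2 ⟨hvq.symm, MG.right_mem hq⟩
    have a3 := Finset.mem_erase.2 ⟨hvr.symm, MG.right_mem hr⟩
    rcases (hmem e).1 he with (rfl | rfl | rfl) | ⟨h1, h2⟩
    · rcases Sym2.mem_iff.1 hx with rfl | rfl <;> assumption
    · rcases Sym2.mem_iff.1 hx with rfl | rfl <;> assumption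
    · rcases Sym2.mem_iff.1 hx with rfl | rfl <;> assumption
    · exact Finset.mem_erase.2 ⟨fun e' => h2 (e' ▸ hx), G.mem e h1 x hx⟩, by
    intro e he
    rcases (hmem e).1 he with (rfl | rfl | rfl) | ⟨h1, -⟩
    · simpa using hpq
    · simpa using hqr
    · simpa using hrp
    · exact G.loopless e h1⟩
  have hE : G.E = {s(v, p), s(v, q), s(v, r)} + R := by
    rw [← Multiset.filter_add_not (fun e => v ∈ e) G.E]
    congr 1
    refine (Multiset.Nodup.ext (hN.filter _) ?_).2 ?_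
    · simp [hpq, hqr, hrp.symm, hvq, hvr]
    · intro e
      induction e using Sym2.ind with
      | h x y =>
      simp only [Multiset.mem_filter, Sym2.mem_iff, Multiset.insert_eq_cons, Multiset.mem_cons,
        Multiset.mem_singleton]
      constructor
      · rintro ⟨h1, rfl | rfl⟩
        · rcases hnb y h1 with rfl | rfl | rfl
          · exact Or.inl rfl
          · exact Or.inr (Or.inl rfl)
          · exact Or.inr (Or.inr rfl)
        · rw [Sym2.eq_swap] at h1 ⊢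
          rcases hnb x h1 with rfl | rfl | rfl
          · exact Or.inl rfl
          · exact Or.inr (Or.inl rfl)
          · exact Or.inr (Or.inr rfl)
      · rintro (h | h | h)
        · refine ⟨h ▸ hp, ?_⟩
          have : v ∈ s(x, y) := by rw [h]; simp
          simpa using this
        · refine ⟨h ▸ hq, ?_⟩
          have : v ∈ s(x, y) := by rw [h]; simp
          simpa using this
        · refine ⟨h ▸ hr, ?_⟩
          have : v ∈ s(x, y) := by rw [h]; simp
          simpa using this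
  refine ⟨H, Step.yDelta G H p q r v R (by simp [H]) ?_ hE rfl, ?_, ?_⟩
  · exact (Finset.insert_erase (MG.left_mem hp)).symm
  · refine twoConn_elim (v := v) hG rfl ?_ ?_ ?_
    · simp only [H, Multiset.card_add, Multiset.insert_eq_cons, Multiset.card_cons,
        Multiset.card_singleton]
      omega
    · intro x y h hx hy
      refine (hmem _).2 (Or.inr ⟨h, ?_⟩)
      simp only [Sym2.mem_iff, not_or]
      exact ⟨hx.symm, hy.symm⟩
    · intro x y hx hy hxy
      refine (hmem _).2 (Or.inl ?_)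
      rcases hnb x hx with rfl | rfl | rfl <;> rcases hnb y hy with rfl | rfl | rfl <;>
        first | exact absurd rfl hxy | simp
  · intro x y h
    have h1 := Finset.mem_erase.1 (MG.left_mem (G := H) h)
    have h2 := Finset.mem_erase.1 (MG.right_mem (G := H) h)
    refine ⟨h1.1, h2.1, ?_⟩
    rcases (hmem _).1 h with (h | h | h) | h
    · rcases Sym2.eq_iff.1 h with ⟨rfl, rfl⟩ | ⟨rfl, rfl⟩ <;> exact Or.inr ⟨‹_›, ‹_›⟩
    · rcases Sym2.eq_iff.1 h with ⟨rfl, rfl⟩ | ⟨rfl, rfl⟩ <;> exact Or.inr ⟨‹_›, ‹_›⟩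
    · rcases Sym2.eq_iff.1 h with ⟨rfl, rfl⟩ | ⟨rfl, rfl⟩ <;> exact Or.inr ⟨‹_›, ‹_›⟩
    · exact Or.inl h.1

end Pool.Agent.P.MP_5af56b_co
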