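import Pool.Agent.P.MP_5af56b_co.Lift

namespace Pool.Agent.P.MP_5af56b_co

open Relation

theorem exists_deltaY {G : MG} (hG : TwoConn G) (hN : G.E.Nodup) {a b c w : ℕ} (hw : w ∉ G.V)
    (hab : s(a, b) ∈ G.E) (hbc : s(b, c) ∈ G.E) (hca : s(c, a) ∈ G.E)
    (hd : ∀ p, T3 a b c p → ∃ d, ¬ T3 a b c d ∧ s(p, d) ∈ G.E) :
    ∃ H : MG, Step G H ∧ TwoConn H ∧ ∀ x y, s(x, y) ∈ H.E →
      (s(x, y) ∈ G.E ∧ ¬ (T3 a b c x ∧ T3 a b c y)) ∨ (x = w ∧ T3 a b c y) ∨
        (y = w ∧ T3 a b c x) := by
  classical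
  set R : Multiset (Sym2 ℕ) := G.E.filter (fun e => ¬ ∀ x ∈ e, T3 a b c x) with hR
  have nab := MG.ne_of_mem hab
  have nbc := MG.ne_of_mem hbc
  have nca := MG.ne_of_mem hca
  have hTV : ∀ x, T3 a b c x → x ∈ G.V := by
    rintro x (rfl | rfl | rfl)
    · exact MG.left_mem hab
    · exact MG.left_mem hbc
    · exact MG.left_mem hca
  have hTa : T3 a b c a := Or.inl rfl
  have hTb : T3 a b c b := Or.inr (Or.inl rfl)
  have hTc : T3 a b c c := Or.inr (Or.inr rfl)
  have hTw : ∀ x, T3 a b c x → w ≠ x := fun x hx e => hw (e ▸ hTV x hx)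
  have hRm : ∀ x y, s(x, y) ∈ R ↔ s(x, y) ∈ G.E ∧ ¬ (T3 a b c x ∧ T3 a b c y) := by
    intro x y
    simp only [hR, Multiset.mem_filter, Sym2.mem_iff, forall_eq_or_imp, forall_eq]
  have hmem : ∀ e, e ∈ ({s(w, a), s(w, b), s(w, c)} + R : Multiset (Sym2 ℕ)) ↔
      (e = s(w, a) ∨ e = s(w, b) ∨ e = s(w, c)) ∨ e ∈ R := by
    intro e
    simp [or_assoc]
  let H : MG := ⟨insert w G.V, {s(w, a), s(w, b), s(w, c)} + R, by
    intro e he x hx
    have a0 := Finset.mem_insert_self w G.V
    have a1 := Finset.mem_insert_of_mem (b := w) (hTV a hTa)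
    have a2 := Finset.mem_insert_of_mem (b := w) (hTV b hTb)
    have a3 := Finset.mem_insert_of_mem (b := w) (hTV c hTc)
    rcases (hmem e).1 he with (rfl | rfl | rfl) | h1
    · rcases Sym2.mem_iff.1 hx with rfl | rfl <;> assumption
    · rcases Sym2.mem_iff.1 hx with rfl | rfl <;> assumption
    · rcases Sym2.mem_iff.1 hx with rfl | rfl <;> assumption
    · exact Finset.mem_insert_of_mem (G.mem e (Multiset.mem_filter.1 h1).1 x hx), by
    intro e he
    rcases (hmem e).1 he with (rfl | rfl | rfl) | h1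
    · simpa using hTw a hTa
    · simpa using hTw b hTb
    · simpa using hTw c hTc
    · exact G.loopless e (Multiset.mem_filter.1 h1).1⟩
  have hstar : ∀ x, T3 a b c x → s(w, x) ∈ H.E := by
    rintro x (rfl | rfl | rfl)
    · exact (hmem _).2 (Or.inl (Or.inl rfl))
    · exact (hmem _).2 (Or.inl (Or.inr (Or.inl rfl)))
    · exact (hmem _).2 (Or.inl (Or.inr (Or.inr rfl)))
  have hkeep : ∀ x y, s(x, y) ∈ G.E → ¬ (T3 a b c x ∧ T3 a b c y) → s(x, y) ∈ H.E :=
    fun x y h1 h2 => (hmem _).2 (Or.inr ((hRm x y).2 ⟨h1, h2⟩))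
  have hE : G.E = {s(a, b), s(b, c), s(c, a)} + R := by
    rw [← Multiset.filter_add_not (fun e => ∀ x ∈ e, T3 a b c x) G.E]
    congr 1
    refine (Multiset.Nodup.ext (hN.filter _) ?_).2 ?_
    · simp [nab, nbc, nca, nab.symm, nca.symm]
    · intro e
      induction e using Sym2.ind with
      | h x y =>
      simp only [Multiset.mem_filter, Sym2.mem_iff, Multiset.insert_eq_cons, Multiset.mem_cons,
        Multiset.mem_singleton, forall_eq_or_imp, forall_eq]
      constructor
      · rintro ⟨h1, hx, hy⟩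
        have := MG.ne_of_mem h1
        rcases hx with rfl | rfl | rfl <;> rcases hy with rfl | rfl | rfl <;>
          first | exact absurd rfl this | simp
      · rintro (h | h | h)
        · refine ⟨h ▸ hab, ?_⟩
          rcases Sym2.eq_iff.1 h with ⟨rfl, rfl⟩ | ⟨rfl, rfl⟩ <;> exact ⟨‹_›, ‹_›⟩
        · refine ⟨h ▸ hbc, ?_⟩
          rcases Sym2.eq_iff.1 h with ⟨rfl, rfl⟩ | ⟨rfl, rfl⟩ <;> exact ⟨‹_›, ‹_›⟩
        · refine ⟨h ▸ hca, ?_⟩
          rcases Sym2.eq_iff.1 h with ⟨rfl, rfl⟩ | ⟨rfl, rfl⟩ <;> exact ⟨‹_›, ‹_›⟩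
  have c1 : ∀ S : Set ℕ, ConnOn G S → (∃ t, T3 a b c t ∧ t ∈ S) →
      ConnOn H {x | x ∈ S ∨ x = w} := by
    rintro S hS ⟨t, ht, htS⟩
    set r : ℕ → ℕ → Prop := fun x y => x ∈ {x | x ∈ S ∨ x = w} ∧ y ∈ {x | x ∈ S ∨ x = w} ∧
      s(x, y) ∈ H.E with hr
    have key : ∀ u ∈ S, ∀ v ∈ S, ReflTransGen r u v := by
      intro u hu v hv
      have h := hS u hu v hv
      clear hv
      induction h with
      | refl => exact ReflTransGen.refl
      | @tail x y _ hxy ih =>
        obtain ⟨hx, hy, hE⟩ := hxy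
        by_cases hT : T3 a b c x ∧ T3 a b c y
        · refine (ih.tail (c := w) ⟨Or.inl hx, Or.inr rfl, ?_⟩).tail
            ⟨Or.inr rfl, Or.inl hy, hstar y hT.2⟩
          rw [Sym2.eq_swap]
          exact hstar x hT.1
        · exact ih.tail ⟨Or.inl hx, Or.inl hy, hkeep x y hE hT⟩
    have hwt : r w t := ⟨Or.inr rfl, Or.inl htS, hstar t ht⟩
    have htw : r t w := ⟨Or.inl htS, Or.inr rfl, by rw [Sym2.eq_swap]; exact hstar t ht⟩
    rintro u (hu | rfl) v (hv | rfl)
    · exact key u hu v hv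
    · exact (key u hu t htS).tail htw
    · exact ReflTransGen.head hwt (key t htS v hv)
    · exact ReflTransGen.refl
  have c2 : ConnOn H {x | x ∈ G.V} := by
    set r : ℕ → ℕ → Prop := fun x y => x ∈ {x | x ∈ G.V} ∧ y ∈ {x | x ∈ G.V} ∧
      s(x, y) ∈ H.E with hr
    have rs : ∀ x y, ReflTransGen r x y → ReflTransGen r y x := fun x y =>
      rtg_symm (fun x y h => ⟨h.2.1, h.1, by rw [Sym2.eq_swap]; exact h.2.2⟩)
    have k1 : ∀ p, T3 a b c p → ∃ t, T3 a b c t ∧ t ≠ p ∧ ReflTransGen r p t := by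
      intro p hp
      obtain ⟨d, hdT, hdE⟩ := hd p hp
      have : ∃ q, T3 a b c q ∧ q ≠ p := by
        by_cases e : a = p
        · exact ⟨b, hTb, fun e' => nab (e.trans e'.symm)⟩
        · exact ⟨a, hTa, e⟩
      obtain ⟨q, hq, hqp⟩ := this
      have hpath := hG.2.2 p d ⟨MG.right_mem hdE, (MG.ne_of_mem hdE).symm⟩ q ⟨hTV q hq, hqp⟩
      have : ∃ t, T3 a b c t ∧ t ≠ p ∧ ReflTransGen r d t := by
        clear hdT hdE
        induction hpath using ReflTransGen.head_induction_on with
        | refl => exact ⟨q, hq, hqp, ReflTransGen.refl⟩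
        | @head x y hxy _ ih =>
          by_cases hx : T3 a b c x
          · exact ⟨x, hx, hxy.1.2, ReflTransGen.refl⟩
          · obtain ⟨t, h1, h2, h3⟩ := ih
            exact ⟨t, h1, h2, ReflTransGen.head
              ⟨hxy.1.1, hxy.2.1.1, hkeep x y hxy.2.2 fun h => hx h.1⟩ h3⟩
      obtain ⟨t, h1, h2, h3⟩ := this
      exact ⟨t, h1, h2, ReflTransGen.head
        ⟨hTV p hp, MG.right_mem hdE, hkeep p d hdE fun h => hdT h.2⟩ h3⟩
    have k2 : ∀ p, T3 a b c p → ReflTransGen r a p := by
      obtain ⟨t, h1, h2, h3⟩ := k1 a hTa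
      rcases h1 with rfl | rfl | rfl
      · exact absurd rfl h2
      · obtain ⟨t', h1', h2', h3'⟩ := k1 c hTc
        have : ReflTransGen r a c := by
          rcases h1' with rfl | rfl | rfl
          · exact rs _ _ h3'
          · exact h3.trans (rs _ _ h3')
          · exact absurd rfl h2'
        rintro p (rfl | rfl | rfl)
        · exact ReflTransGen.refl
        · exact h3
        · exact this
      · obtain ⟨t', h1', h2', h3'⟩ := k1 b hTb
        have : ReflTransGen r a b := by
          rcases h1' with rfl | rfl | rfl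
          · exact rs _ _ h3'
          · exact absurd rfl h2'
          · exact h3.trans (rs _ _ h3')
        rintro p (rfl | rfl | rfl)
        · exact ReflTransGen.refl
        · exact this
        · exact h3
    intro u hu v hv
    have h := hG.2.1 u hu v hv
    clear hv
    induction h with
    | refl => exact ReflTransGen.refl
    | @tail x y _ hxy ih =>
      obtain ⟨hx, hy, hE⟩ := hxy
      by_cases hT : T3 a b c x ∧ T3 a b c y
      · exact ih.trans ((rs _ _ (k2 x hT.1)).trans (k2 y hT.2))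
      · exact ih.tail ⟨hx, hy, hkeep x y hE hT⟩
  refine ⟨H, Step.deltaY G H a b c w R hw rfl hE rfl, ⟨?_, ?_, fun x => ?_⟩, ?_⟩
  · simp only [H, Multiset.card_add, Multiset.insert_eq_cons, Multiset.card_cons,
      Multiset.card_singleton]
    omega
  · convert c1 _ hG.2.1 ⟨a, hTa, hTV a hTa⟩ using 2
    ext y
    simp [H, or_comm]
  · by_cases hx : x = w
    · convert c2 using 2
      ext y
      simp only [H, Finset.mem_insert, hx]
      constructor
      · rintro ⟨h | h, h'⟩
        · exact absurd h h'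
        · exact h
      · exact fun h => ⟨Or.inr h, fun e => hw (e ▸ h)⟩
    · have : ∃ t, T3 a b c t ∧ t ∈ {y | y ∈ G.V ∧ y ≠ x} := by
        by_cases e : a = x
        · exact ⟨b, hTb, hTV b hTb, fun e' => nab (e.trans e'.symm)⟩
        · exact ⟨a, hTa, hTV a hTa, e⟩
      convert c1 _ (hG.2.2 x) this using 2
      ext y
      simp only [H, Finset.mem_insert, Set.mem_ofPred_eq]
      constructor
      · rintro ⟨h | h, h'⟩
        · exact Or.inr h
        · exact Or.inl ⟨h, h'⟩
      · rintro (h | h)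
        · exact ⟨Or.inr h.1, h.2⟩
        · exact ⟨Or.inl h, fun e => hx (e.symm.trans h)⟩
  · intro x y h
    rcases (hmem _).1 h with (h | h | h) | h
    · rcases Sym2.eq_iff.1 h with ⟨rfl, rfl⟩ | ⟨rfl, rfl⟩
      · exact Or.inr (Or.inl ⟨rfl, hTa⟩)
      · exact Or.inr (Or.inr ⟨rfl, hTa⟩)
    · rcases Sym2.eq_iff.1 h with ⟨rfl, rfl⟩ | ⟨rfl, rfl⟩
      · exact Or.inr (Or.inl ⟨rfl, hTb⟩)
      · exact Or.inr (Or.inr ⟨rfl, hTb⟩)
    · rcases Sym2.eq_iff.1 h with ⟨rfl, rfl⟩ | ⟨rfl, rfl⟩
      · exact Or.inr (Or.inl ⟨rfl, hTc⟩)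
      · exact Or.inr (Or.inr ⟨rfl, hTc⟩)
    · exact Or.inl ((hRm x y).1 h)

theorem exists_parallel {G : MG} (hG : TwoConn G) (hN : ¬ G.E.Nodup) :
    IsTwoCycle G ∨ ∃ H : MG, Step G H ∧ TwoConn H ∧ Multiset.card H.E < Multiset.card G.E ∧
      ∀ e, e ∈ H.E → e ∈ G.E := by
  classical
  rw [Multiset.nodup_iff_count_le_one] at hN
  push Not at hN
  obtain ⟨e, he⟩ := hN
  induction e using Sym2.ind with
  | h a b =>
  have hle : Multiset.replicate 2 s(a, b) ≤ G.E := Multiset.le_count_iff_replicate_le.1 he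
  obtain ⟨R, hR⟩ := Multiset.le_iff_exists_add.1 hle
  have hR' : G.E = {s(a, b), s(a, b)} + R := hR
  have hab : s(a, b) ∈ G.E := by rw [hR']; simp
  by_cases h0 : R = 0
  · left
    refine ⟨a, b, ?_, by rw [hR', h0, add_zero]⟩
    ext x
    simp only [Finset.mem_insert, Finset.mem_singleton]
    constructor
    · intro hx
      by_cases e : x = a
      · exact Or.inl e
      · obtain ⟨z, -, hz⟩ := first_step hG.2.1 (x := x) (y := a) hx (MG.left_mem hab) e
        rw [hR', h0] at hz
        have : s(x, z) = s(a, b) := by simpa using hz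
        rcases Sym2.eq_iff.1 this with ⟨h, -⟩ | ⟨h, -⟩
        · exact Or.inl h
        · exact Or.inr h
    · rintro (rfl | rfl)
      · exact MG.left_mem hab
      · exact MG.right_mem hab
  · right
    have hmem : ∀ e, e ∈ ({s(a, b)} + R : Multiset (Sym2 ℕ)) ↔ e ∈ G.E := by
      intro e
      rw [hR']
      simp
    let H : MG := ⟨G.V, {s(a, b)} + R, fun e he => G.mem e ((hmem e).1 he),
      fun e he => G.loopless e ((hmem e).1 he)⟩
    have hc : ∀ S, ConnOn G S → ConnOn H S := by
      intro S hS x hx y hy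
      exact ReflTransGen.mono (fun p q h => ⟨h.1, h.2.1, (hmem _).2 h.2.2⟩) _ _ (hS x hx y hy)
    refine ⟨H, Step.parallel G H a b R rfl hR' rfl, ⟨?_, hc _ hG.2.1, fun v => hc _ (hG.2.2 v)⟩,
      ?_, fun e he => (hmem e).1 he⟩
    · have := Multiset.card_pos.2 h0
      simp only [H, Multiset.card_add, Multiset.card_singleton]
      omega
    · rw [hR']
      simp [H]

theorem T3_perm {a b c x : ℕ} : T3 a b c x ↔ T3 b c a x := by
  unfold T3
  tauto

/-- the case of a triangle with a vertex `a` of degree two -/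
theorem tri_deg_two {n : ℕ} (ih : ∀ H : MG, TwoConn H → Red n (si H) → Reducible H)
    {G : MG} (hG : TwoConn G) (hN : G.E.Nodup) {G' : SG} {a b c w : ℕ}
    (h1 : ∀ x, ¬ (si G).A w x)
    (h2 : ∀ x y, (si G).A x y → ¬ (T3 a b c x ∧ T3 a b c y) → G'.A x y)
    (h3 : ∀ x, T3 a b c x → G'.A w x) (hr : Red n G')
    (hab : s(a, b) ∈ G.E) (hbc : s(b, c) ∈ G.E) (hca : s(c, a) ∈ G.E)
    (hd : ¬ ∃ d, ¬ T3 a b c d ∧ s(a, d) ∈ G.E) : Reducible G := by
  push Not at hd
  have hnb : ∀ x, s(a, x) ∈ G.E → x = b ∨ x = c := by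
    intro x hx
    by_contra hc
    refine hd x ?_ hx
    rintro (h | h | h)
    · exact MG.ne_of_mem hx h.symm
    · exact hc (Or.inl h)
    · exact hc (Or.inr h)
  obtain ⟨H, s1, s2, s3⟩ := exists_series hG hN (MG.ne_of_mem hbc) hab
    (by rwa [Sym2.eq_swap]) hnb
  refine Reducible.step s1 (ih H s2 (red_minor hr _ ?_))
  have M : Model (si H) (si G) {x | x ≠ a} id := by
    refine ⟨?_, ?_⟩
    · intro u _ v _ e
      have : u = v := e
      subst this
      exact ReflTransGen.refl
    · intro x y hxy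
      obtain ⟨e1, e2, e3⟩ := s3 x y hxy
      refine ⟨x, e1, y, e2, rfl, rfl, ?_⟩
      rcases e3 with e3 | e3
      · exact e3
      · show s(x, y) ∈ G.E
        rw [e3]; exact hbc
  refine sminor_center M h1 h2 h3 (p := b) (Or.inr (Or.inl rfl)) (MG.ne_of_mem hab).symm ?_
  intro s t hs ht hsU htU hA
  have := MG.ne_of_mem hA
  simp only [Set.mem_ofPred_eq, id] at *
  unfold T3 at hs ht
  omega

theorem reducible_of_red : ∀ (n : ℕ) (G : MG), TwoConn G → Red n (si G) → Reducible G := by
  have base : ∀ G : MG, TwoConn G → ¬ ∀ x y, ¬ (si G).A x y := by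
    intro G hG h
    obtain ⟨e, he⟩ := Multiset.card_pos_iff_exists_mem.1 (lt_of_lt_of_le (by omega) hG.1)
    induction e using Sym2.ind with
    | h x y => exact h x y he
  intro n
  induction n with
  | zero =>
    intro G hG h
    cases h with
    | nil _ _ h => exact absurd h (base G hG)
  | succ n ih =>
    intro G
    induction hm : Multiset.card G.E using Nat.strong_induction_on generalizing G with
    | h m ihm =>
    intro hG h
    by_cases hN : G.E.Nodup
    swap
    · rcases exists_parallel hG hN with h2 | ⟨H, s1, s2, s3, s4⟩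
      · exact ⟨G, ReflTransGen.refl, h2⟩
      · exact Reducible.step s1 (ihm _ (hm ▸ s3) H rfl s2
          (red_minor h _ (sminor_of_sub fun x y hxy => s4 _ hxy)))
    generalize hS : si G = S at h
    cases h with
    | nil _ _ h => exact absurd (hS ▸ h) (base G hG)
    | elim _ _ G' v a b c h1 h2 h3 hr =>
      subst hS
      by_cases hv : ∃ p, s(v, p) ∈ G.E
      swap
      · push Not at hv
        refine ih G hG (red_minor hr _ (sminor_of_sub fun x y hxy => h2 x y hxy ?_ ?_))
        · rintro rfl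
          exact hv y hxy
        · rintro rfl
          exact hv x ((si G).symm _ _ hxy)
      obtain ⟨p, hp⟩ := hv
      obtain ⟨q, hqp, hq⟩ := second_nbr hG hN hp
      by_cases hr3 : ∃ r, r ≠ p ∧ r ≠ q ∧ s(v, r) ∈ G.E
      · obtain ⟨r, hrp, hrq, hr'⟩ := hr3
        have hnb : ∀ x, s(v, x) ∈ G.E → T3 p q r x := by
          intro x hx
          have e1 := h1 p hp
          have e2 := h1 q hq
          have e3 := h1 r hr'
          have e4 := h1 x hx
          unfold T3 at *
          omega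
        obtain ⟨H, s1, s2, s3⟩ := exists_yDelta hG hN hqp.symm hrq.symm hrp hp hq hr' hnb
        refine Reducible.step s1 (ih H s2 (red_minor hr _ (sminor_of_sub fun x y hxy => ?_)))
        obtain ⟨e1, e2, e3 | e3⟩ := s3 x y hxy
        · exact h2 x y e3 e1 e2
        · exact h3 x y e3.1 e3.2 (MG.ne_of_mem hxy)
      · push Not at hr3
        have hnb : ∀ x, s(v, x) ∈ G.E → x = p ∨ x = q := by
          intro x hx
          by_contra hc
          push Not at hc
          exact hr3 x hc.1 hc.2 hx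
        obtain ⟨H, s1, s2, s3⟩ := exists_series hG hN hqp.symm hp hq hnb
        refine Reducible.step s1 (ih H s2 (red_minor hr _ (sminor_of_sub fun x y hxy => ?_)))
        obtain ⟨e1, e2, e3 | e3⟩ := s3 x y hxy
        · exact h2 x y e3 e1 e2
        · rcases Sym2.eq_iff.1 e3 with ⟨rfl, rfl⟩ | ⟨rfl, rfl⟩
          · exact h3 _ _ hp hq hqp.symm
          · exact h3 _ _ hq hp hqp
    | dy _ _ G' a b c w h1 h2 h3 hr =>
      subst hS
      have M : Model (si G) (si G) Set.univ id := by
        refine ⟨?_, fun x y hxy => ⟨x, trivial, y, trivial, rfl, rfl, hxy⟩⟩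
        intro u _ v _ e
        have : u = v := e
        subst this
        exact ReflTransGen.refl
      have cen : ∀ p, T3 a b c p → (∀ s t, T3 a b c s → T3 a b c t → s(s, t) ∈ G.E →
          s = p ∨ t = p) → Reducible G := fun p hp hc =>
        ih G hG (red_minor hr _ (sminor_center M h1 h2 h3 hp trivial
          fun s t hs ht _ _ hA => hc s t hs ht hA))
      by_cases hab : s(a, b) ∈ G.E
      swap
      · refine cen c (Or.inr (Or.inr rfl)) fun s t hs ht hA => ?_
        have := MG.ne_of_mem hA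
        rcases hs with rfl | rfl | rfl <;> rcases ht with rfl | rfl | rfl <;>
          first | exact absurd rfl this | exact Or.inl rfl | exact Or.inr rfl |
            exact absurd hA hab | exact absurd (Sym2.eq_swap ▸ hA) hab
      by_cases hbc : s(b, c) ∈ G.E
      swap
      · refine cen a (Or.inl rfl) fun s t hs ht hA => ?_
        have := MG.ne_of_mem hA
        rcases hs with rfl | rfl | rfl <;> rcases ht with rfl | rfl | rfl <;>
          first | exact absurd rfl this | exact Or.inl rfl | exact Or.inr rfl |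
            exact absurd hA hbc | exact absurd (Sym2.eq_swap ▸ hA) hbc
      by_cases hca : s(c, a) ∈ G.E
      swap
      · refine cen b (Or.inr (Or.inl rfl)) fun s t hs ht hA => ?_
        have := MG.ne_of_mem hA
        rcases hs with rfl | rfl | rfl <;> rcases ht with rfl | rfl | rfl <;>
          first | exact absurd rfl this | exact Or.inl rfl | exact Or.inr rfl |
            exact absurd hA hca | exact absurd (Sym2.eq_swap ▸ hA) hca
      by_cases da : ∃ d, ¬ T3 a b c d ∧ s(a, d) ∈ G.E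
      swap
      · exact tri_deg_two ih hG hN h1 h2 h3 hr hab hbc hca da
      by_cases db : ∃ d, ¬ T3 a b c d ∧ s(b, d) ∈ G.E
      swap
      · simp only [T3_perm (a := a)] at h2 h3 db
        exact tri_deg_two ih hG hN h1 h2 h3 hr hbc hca hab db
      by_cases dc : ∃ d, ¬ T3 a b c d ∧ s(c, d) ∈ G.E
      swap
      · simp only [← T3_perm (a := c)] at h2 h3 dc
        exact tri_deg_two ih hG hN h1 h2 h3 hr hca hab hbc dc
      have hw : w ∉ G.V := by
        intro hw
        have hwa : w ≠ a := fun e => h1 b (e ▸ hab)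
        obtain ⟨z, -, hz⟩ := first_step hG.2.1 (x := w) (y := a) hw (MG.left_mem hab) hwa
        exact h1 z hz
      obtain ⟨H, s1, s2, s3⟩ := exists_deltaY hG hN hw hab hbc hca (by
        rintro p (rfl | rfl | rfl) <;> assumption)
      refine Reducible.step s1 (ih H s2 (red_minor hr _ (sminor_of_sub fun x y hxy => ?_)))
      rcases s3 x y hxy with e | ⟨rfl, e⟩ | ⟨rfl, e⟩
      · exact h2 x y e.1 e.2
      · exact h3 y e
      · exact G'.symm _ _ (h3 x e)

end Pool.Agent.P.MP_5af56b_co
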