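import Pool.Agent.P.MP_5af56b_co.Lift2
import Pool.Agent.P.MP_5af56b_co.Check

namespace Pool.Agent.P.MP_5af56b_co

open Relation

def SG.del (G : SG) (u v : ℕ) : SG where
  A x y := G.A x y ∧ s(x, y) ≠ s(u, v)
  symm := fun x y h => ⟨G.symm _ _ h.1, by rw [Sym2.eq_swap]; exact h.2⟩
  irr := fun x h => G.irr x h.1
  bdd := let ⟨N, hN⟩ := G.bdd; ⟨N, fun x y h => hN x y h.1⟩

def ren (u v x : ℕ) : ℕ := if x = v then u else x

def SG.con (G : SG) (u v : ℕ) : SG where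
  A x y := x ≠ y ∧ ∃ p q, G.A p q ∧ ren u v p = x ∧ ren u v q = y
  symm := fun x y ⟨h, p, q, h1, h2, h3⟩ => ⟨h.symm, q, p, G.symm _ _ h1, h3, h2⟩
  irr := fun x h => h.1 rfl
  bdd := by
    obtain ⟨N, hN⟩ := G.bdd
    refine ⟨N + u + 1, ?_⟩
    rintro x y ⟨-, p, q, h1, rfl, -⟩
    have := hN p q h1
    unfold ren
    split_ifs <;> omega

theorem sminor_con {H G : SG} {U : Set ℕ} {f : ℕ → ℕ} (M : Model H G U f) {u v : ℕ}
    (huv : u ≠ v) (hu : u ∈ U) (e : f u = f v) : SMinor H (G.con u v) := by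
  have r1 : ∀ x, f (ren u v x) = f x := by
    intro x
    unfold ren
    split_ifs with h
    · rw [h, e]
    · rfl
  have r2 : ∀ x ∈ U, ren u v x ∈ {x | x ∈ U ∧ x ≠ v} := by
    intro x hx
    unfold ren
    split_ifs with h
    · exact ⟨hu, huv⟩
    · exact ⟨hx, h⟩
  have r3 : ∀ x, x ≠ v → ren u v x = x := fun x hx => if_neg hx
  refine ⟨{x | x ∈ U ∧ x ≠ v}, f, ⟨?_, ?_⟩⟩
  · rintro x ⟨hx, hxv⟩ y ⟨hy, hyv⟩ exy
    have := (rtg_fib (s := FR (G.con u v) {x | x ∈ U ∧ x ≠ v} f) (ren u v)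
      (M.conn x hx y hy exy) ?_).2
    · rwa [r3 x hxv, r3 y hyv] at this
    rintro s t ⟨hs, ht, hst, hA⟩ -
    by_cases e' : ren u v s = ren u v t
    · rw [e']
    · exact ReflTransGen.single
        ⟨r2 s hs, r2 t ht, by rw [r1, r1, hst], e', s, t, hA, rfl, rfl⟩
  · intro x y hxy
    obtain ⟨s, hs, t, ht, rfl, rfl, hA⟩ := M.edge x y hxy
    refine ⟨_, r2 s hs, _, r2 t ht, r1 s, r1 t, ?_, s, t, hA, rfl, rfl⟩
    intro e'
    have : f s = f t := by rw [← r1 s, e', r1]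
    exact H.irr _ (this ▸ hxy)

theorem minors_red {G : MG} (hN : G.E.Nodup) (hdeg : ∀ v ∈ G.V, ∃ u, s(v, u) ∈ G.E)
    (hdel : ∀ u v, s(u, v) ∈ G.E → Rd ((si G).del u v))
    (hcon : ∀ u v, s(u, v) ∈ G.E → Rd ((si G).con u v) ∨ Rd ((si G).con v u))
    {H : MG} (hm : IsMinor H G) (hi : ¬ Iso G H) : Rd (si H) := by
  classical
  obtain ⟨U, f, F, hU, hV, hc, hF, hFU, hE⟩ := hm
  have hedge : ∀ x y, s(x, y) ∈ H.E → ∃ u ∈ U, ∃ v ∈ U, f u = x ∧ f v = y ∧ s(u, v) ∈ F := by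
    intro x y h
    rw [hE, Multiset.mem_map] at h
    obtain ⟨e, he, h⟩ := h
    induction e using Sym2.ind with
    | h u v =>
    have hu := hFU _ he u (by simp)
    have hv := hFU _ he v (by simp)
    rw [Sym2.map_mk] at h
    rcases Sym2.eq_iff.1 h with ⟨h1, h2⟩ | ⟨h1, h2⟩
    · exact ⟨u, hu, v, hv, h1, h2, he⟩
    · exact ⟨v, hv, u, hu, h2, h1, by rwa [Sym2.eq_swap]⟩
  have M : Model (si H) (si G) (U : Set ℕ) f := by
    refine ⟨fun u hu v hv e => ?_, fun x y h => ?_⟩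
    · exact ReflTransGen.mono
        (fun a b h => (⟨h.1.1, h.2.1.1, h.1.2.trans h.2.1.2.symm, h.2.2⟩ : FR (si G) U f a b))
        _ _ (hc (f u) u ⟨hu, rfl⟩ v ⟨hv, e.symm⟩)
    · obtain ⟨u, hu, v, hv, h1, h2, h3⟩ := hedge x y h
      exact ⟨u, hu, v, hv, h1, h2, Multiset.mem_of_le hF h3⟩
  by_cases hb : ∃ u v, FR (si G) U f u v
  · obtain ⟨u, v, hu, hv, e, hA⟩ := hb
    rcases hcon u v hA with h | h
    · exact h.minor (sminor_con M (MG.ne_of_mem hA) hu e)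
    · exact h.minor (sminor_con M (MG.ne_of_mem hA).symm hv e.symm)
  have hinj : ∀ u ∈ U, ∀ v ∈ U, f u = f v → u = v := by
    intro u hu v hv e
    rcases (M.conn u hu v hv e).cases_head with h | ⟨t, ht, -⟩
    · exact h
    · exact absurd ⟨u, t, ht⟩ hb
  by_cases ha : ∃ e ∈ G.E, e ∉ F
  · obtain ⟨e, he, heF⟩ := ha
    induction e using Sym2.ind with
    | h u v =>
    refine (hdel u v he).minor ⟨U, f, ⟨fun x hx y hy e => ?_, fun x y h => ?_⟩⟩
    · rw [hinj x hx y hy e]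
    · obtain ⟨s, hs, t, ht, h1, h2, h3⟩ := hedge x y h
      exact ⟨s, hs, t, ht, h1, h2, Multiset.mem_of_le hF h3, fun e => heF (e ▸ h3)⟩
  push Not at ha
  have hFE : F = G.E := le_antisymm hF ((Multiset.le_iff_subset hN).2 ha)
  have hUV : U = G.V := by
    refine Finset.Subset.antisymm hU fun v hv => ?_
    obtain ⟨u, hu⟩ := hdeg v hv
    exact hFU _ (ha _ hu) v (by simp)
  exact absurd ⟨f, fun u hu v hv e => hinj u (hUV ▸ hu) v (hUV ▸ hv) e, hUV ▸ hV, hFE ▸ hE⟩ hi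

theorem not_reducible {G : MG} (hN : G.E.Nodup)
    (htri : ∀ x y z, s(x, y) ∈ G.E → s(y, z) ∈ G.E → s(z, x) ∈ G.E → False)
    (hdeg : ∀ v ∈ G.V, ∀ a b c, ¬ ∀ x, s(v, x) ∈ G.E → T3 a b c x) : ¬ Reducible G := by
  classical
  have hpar : ∀ (a b : ℕ) (R : Multiset (Sym2 ℕ)), G.E ≠ {s(a, b), s(a, b)} + R := by
    intro a b R h
    rw [h] at hN
    have := Multiset.nodup_iff_count_le_one.1 hN s(a, b)
    simp at this
  rintro ⟨K, h1, a, b, h2, h3⟩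
  rcases h1.cases_head with rfl | ⟨H, hs, -⟩
  · exact hpar a b 0 (by rw [h3, add_zero])
  cases hs with
  | deltaY a b c w R h1 h2 h3 h4 =>
    exact htri a b c (by rw [h3]; simp) (by rw [h3]; simp) (by rw [h3]; simp)
  | yDelta a b c v R h1 h2 h3 h4 =>
    refine hdeg v (by rw [h2]; simp) a b c fun x hx => ?_
    have hne := MG.ne_of_mem hx
    rw [h3, Multiset.mem_add] at hx
    rcases hx with hx | hx
    · simp only [Multiset.insert_eq_cons, Multiset.mem_cons, Multiset.mem_singleton,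
        Sym2.eq_iff] at hx
      unfold T3
      omega
    · exact absurd (H.mem _ (by rw [h4]; exact Multiset.mem_add.2 (Or.inr hx)) v (by simp)) h1
  | parallel a b R h1 h2 h3 => exact hpar a b R h2
  | series a b v R h1 h2 h3 h4 =>
    refine hdeg v (by rw [h2]; simp) a b b fun x hx => ?_
    have hne := MG.ne_of_mem hx
    rw [h3, Multiset.mem_add] at hx
    rcases hx with hx | hx
    · simp only [Multiset.insert_eq_cons, Multiset.mem_cons, Multiset.mem_singleton,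
        Sym2.eq_iff] at hx
      unfold T3
      omega
    · exact absurd (H.mem _ (by rw [h4]; exact Multiset.mem_add.2 (Or.inr hx)) v (by simp)) h1

theorem ofList_E {L : List (ℕ × ℕ)} {x y : ℕ} :
    s(x, y) ∈ (ofList L).E ↔ x ≠ y ∧ ((x, y) ∈ L ∨ (y, x) ∈ L) := by
  simp only [ofList, Multiset.mem_coe, List.mem_map, List.mem_filter, decide_eq_true_eq]
  constructor
  · rintro ⟨⟨p, q⟩, ⟨h1, h2⟩, h3⟩
    rcases Sym2.eq_iff.1 h3 with ⟨rfl, rfl⟩ | ⟨rfl, rfl⟩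
    · exact ⟨h2, Or.inl h1⟩
    · exact ⟨Ne.symm h2, Or.inr h1⟩
  · rintro ⟨h1, h2 | h2⟩
    · exact ⟨(x, y), ⟨h2, h1⟩, rfl⟩
    · exact ⟨(y, x), ⟨h2, h1.symm⟩, Sym2.eq_swap⟩

theorem ofList_V {L : List (ℕ × ℕ)} {x : ℕ} (h : x ∈ (ofList L).V) :
    ∃ y, s(x, y) ∈ (ofList L).E := by
  simp only [ofList, List.mem_toFinset, List.mem_flatMap, List.mem_filter, decide_eq_true_eq,
    List.mem_cons, List.not_mem_nil, or_false] at h
  obtain ⟨⟨p, q⟩, ⟨h1, h2⟩, rfl | rfl⟩ := h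
  · exact ⟨q, ofList_E.2 ⟨h2, Or.inl h1⟩⟩
  · exact ⟨p, ofList_E.2 ⟨Ne.symm h2, Or.inr h1⟩⟩

end Pool.Agent.P.MP_5af56b_co
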