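import Pool.Agent.P.MP_5af56b_co.Conn
import Pool.Agent.P.MP_5af56b_co.Minor

namespace Pool.Agent.P.MP_5af56b_co

open Relation

def nb (A : List (ℕ × ℕ)) (v : ℕ) : List ℕ :=
  A.filterMap fun p => if p.1 = v then some p.2 else if p.2 = v then some p.1 else none

theorem mem_nb {A : List (ℕ × ℕ)} {v x : ℕ} : x ∈ nb A v ↔ adjL A v x := by
  simp only [nb, List.mem_filterMap, adjL]
  constructor
  · rintro ⟨⟨p, q⟩, h1, h2⟩
    split_ifs at h2 with e1 e2
    · simp only [Option.some.injEq] at h2 e1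
      subst h2 e1
      exact Or.inl h1
    · simp only [Option.some.injEq] at h2 e2
      subst h2 e2
      exact Or.inr h1
  · rintro (h | h)
    · exact ⟨_, h, by simp⟩
    · refine ⟨_, h, ?_⟩
      by_cases e : x = v <;> simp [e]

theorem adjL.symm {A : List (ℕ × ℕ)} {p q : ℕ} (h : adjL A p q) : adjL A q p := Or.symm h

def delL (e : ℕ × ℕ) (A : List (ℕ × ℕ)) : List (ℕ × ℕ) :=
  A.filter (fun p => !(Nat.beq p.1 e.1 && Nat.beq p.2 e.2))

def rn (u v x : ℕ) : ℕ := bif Nat.beq x v then u else x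

theorem rn_eq (u v x : ℕ) : rn u v x = ren u v x := by
  unfold rn ren
  by_cases h : x = v
  · simp [h]
  · have : Nat.beq x v = false := Bool.eq_false_iff.2 fun e => h (Nat.eq_of_beq_eq_true e)
    simp [h, this]

def conL (e : ℕ × ℕ) (A : List (ℕ × ℕ)) : List (ℕ × ℕ) :=
  A.map (fun p => (rn e.1 e.2 p.1, rn e.1 e.2 p.2))

def allOK (k : ℕ) (A : List (ℕ × ℕ)) : List (ℕ × ℕ) → List ℕ → Bool
  | [], _ => true
  | e :: es, c1 :: c2 :: cs => run k c1 (delL e A) && run k c2 (conL e A) && allOK k A es cs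
  | _ :: _, _ => false

theorem allOK_spec {k : ℕ} {A : List (ℕ × ℕ)} : ∀ (es : List (ℕ × ℕ)) (cs : List ℕ),
    allOK k A es cs = true → ∀ e ∈ es,
      (∃ C, run k C (delL e A) = true) ∧ ∃ C, run k C (conL e A) = true
  | [], _, _ => by simp
  | _ :: _, [], h => by simp [allOK] at h
  | _ :: _, [_], h => by simp [allOK] at h
  | e :: es, c1 :: c2 :: cs, h => by
    rw [allOK, Bool.and_eq_true, Bool.and_eq_true] at h
    intro e' he'
    rcases List.mem_cons.1 he' with rfl | he'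
    · exact ⟨⟨c1, h.1.1⟩, c2, h.1.2⟩
    · exact allOK_spec es cs h.2 e' he'

def KL (k : ℕ) : List (ℕ × ℕ) :=
  (60 :: List.range k).flatMap fun p => (60 :: List.range k).map fun q => (p, q)

theorem mem_KL {k p q : ℕ} : (p, q) ∈ KL k ↔ (p < k ∨ p = 60) ∧ (q < k ∨ q = 60) := by
  simp only [KL, List.mem_flatMap, List.mem_map, List.mem_cons, List.mem_range, Prod.mk.injEq]
  constructor
  · rintro ⟨a, ha, b, hb, rfl, rfl⟩
    exact ⟨ha.symm, hb.symm⟩
  · rintro ⟨h1, h2⟩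
    exact ⟨p, h1.symm, q, h2.symm, rfl, rfl⟩

/-- the finite structural conditions on a piece -/
def Shape (k n : ℕ) (A : List (ℕ × ℕ)) : Prop :=
  n ≤ 60 ∧ (∀ p ∈ A, p.1 < p.2 ∧ k ≤ p.2 ∧ p.2 < n) ∧ A.Nodup ∧
    (∀ p ∈ A, ∀ z ∈ nb A p.1, z ∉ nb A p.2) ∧
    (∀ v ∈ List.range n, (if v < k then 2 else 4) ≤ (nb A v).toFinset.card)

instance (k n : ℕ) (A : List (ℕ × ℕ)) : Decidable (Shape k n A) := by
  unfold Shape
  infer_instance

def good (k n : ℕ) (A : List (ℕ × ℕ)) (c : ℕ) : Bool :=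
  decide (Shape k n A) && conn1 k n (mkM A) && conn2 k n (mkM A) && run 0 c (A ++ KL k)

theorem dc_of4 {k : ℕ} {A : List (ℕ × ℕ)} {c1 c2 c3 c4 : List ℕ}
    (h1 : allOK k A (A.take 12) c1 = true) (h2 : allOK k A ((A.drop 12).take 12) c2 = true)
    (h3 : allOK k A (((A.drop 12).drop 12).take 12) c3 = true)
    (h4 : allOK k A (((A.drop 12).drop 12).drop 12) c4 = true) :
    ∀ e ∈ A, (∃ C, run k C (delL e A) = true) ∧ ∃ C, run k C (conL e A) = true := by
  intro e he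
  rw [← List.take_append_drop 12 A, List.mem_append] at he
  rcases he with he | he
  · exact allOK_spec _ _ h1 e he
  rw [← List.take_append_drop 12 (A.drop 12), List.mem_append] at he
  rcases he with he | he
  · exact allOK_spec _ _ h2 e he
  rw [← List.take_append_drop 12 ((A.drop 12).drop 12), List.mem_append] at he
  rcases he with he | he
  · exact allOK_spec _ _ h3 e he
  · exact allOK_spec _ _ h4 e he

structure Piece (k : ℕ) (A : List (ℕ × ℕ)) : Prop where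
  lt : ∀ p ∈ A, p.1 < p.2 ∧ k ≤ p.2 ∧ p.2 < 60
  nodup : A.Nodup
  tri : ∀ x y z, adjL A x y → adjL A y z → adjL A z x → False
  deg4 : ∀ v u, k ≤ v → adjL A v u → ∀ a b c, ¬ ∀ x, adjL A v x → T3 a b c x
  deg2 : ∀ t < k, ∃ x y, x ≠ y ∧ adjL A t x ∧ adjL A t y
  c1 : ∀ Y : Finset ℕ, Y.card < k → ∀ u w, adjL A u w → u ∉ Y →
    ∃ t, t < k ∧ t ∉ Y ∧ PA A Y t u
  c2 : ∀ Y : Finset ℕ, (Y.filter (fun y => k ≤ y)).card ≤ 1 → ∀ t t', t < k → t' < k → t ∉ Y →
    t' ∉ Y → PA A Y t t'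
  kred : ∃ C, run 0 C (A ++ KL k) = true
  dc : ∀ e ∈ A, (∃ C, run k C (delL e A) = true) ∧ ∃ C, run k C (conL e A) = true

theorem piece_of_good {k n : ℕ} {A : List (ℕ × ℕ)} {c : ℕ} (hk : k ≤ n)
    (h : good k n A c = true)
    (h4 : ∀ e ∈ A, (∃ C, run k C (delL e A) = true) ∧ ∃ C, run k C (conL e A) = true) :
    Piece k A := by
  simp only [good, Bool.and_eq_true, decide_eq_true_eq] at h
  obtain ⟨⟨⟨⟨s0, s1, s2, s3, s4⟩, h1⟩, h2⟩, h3⟩ := h
  have h64 : ∀ e ∈ A, e.1 < 64 ∧ e.2 < 64 := fun e he => by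
    have := s1 e he
    omega
  have hn : ∀ u w, adjL A u w → u < n := by
    rintro u w (h | h)
    · have := s1 _ h
      simp only at this
      omega
    · exact (s1 _ h).2.2
  have hP : ∀ (Y : Finset ℕ) (t u : ℕ), PA A (Y.filter (fun y => y < n)) t u → PA A Y t u := by
    intro Y t u h
    refine ReflTransGen.mono (fun a b hab => ?_) _ _ h
    exact ⟨fun h => hab.1 (Finset.mem_filter.2 ⟨h, hn _ _ hab.2.2⟩),
      fun h => hab.2.1 (Finset.mem_filter.2 ⟨h, hn _ _ hab.2.2.symm⟩), hab.2.2⟩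
  refine ⟨fun p hp => ?_, s2, ?_, ?_, ?_, ?_, ?_, ⟨c, h3⟩, h4⟩
  · have := s1 p hp
    omega
  · rintro x y z (h | h) hy hz
    · exact s3 _ h z (mem_nb.2 hz.symm) (mem_nb.2 hy)
    · exact s3 _ h z (mem_nb.2 hy) (mem_nb.2 hz.symm)
  · intro v u hv hvu a b c hT
    have h5 := s4 v (List.mem_range.2 (hn v u hvu))
    rw [if_neg (by omega)] at h5
    have : (nb A v).toFinset ⊆ {a, b, c} := by
      intro x hx
      have := hT x (mem_nb.1 (List.mem_toFinset.1 hx))
      simpa [T3] using this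
    have h6 := (Finset.card_le_card this).trans Finset.card_le_three
    omega
  · intro t ht
    have h5 := s4 t (List.mem_range.2 (by omega))
    rw [if_pos ht] at h5
    obtain ⟨x, hx, y, hy, hxy⟩ := Finset.one_lt_card.1 h5
    exact ⟨x, y, hxy, mem_nb.1 (List.mem_toFinset.1 hx), mem_nb.1 (List.mem_toFinset.1 hy)⟩
  · intro Y hY u w huw hu
    obtain ⟨t, h5, h6, h7⟩ := conn1_spec h64 h1 (Y.filter (fun y => y < n))
      (lt_of_le_of_lt (Finset.card_filter_le _ _) hY) (fun y hy => (Finset.mem_filter.1 hy).2)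
      u (hn u w huw) (fun h => hu (Finset.mem_filter.1 h).1)
    exact ⟨t, h5, fun h => h6 (Finset.mem_filter.2 ⟨h, by omega⟩), hP Y t u h7⟩
  · intro Y hY t t' ht ht' htY htY'
    refine hP Y t t' (conn2_spec h64 h2 _ (le_trans (Finset.card_le_card ?_) hY)
      (fun y hy => (Finset.mem_filter.1 hy).2) t t' ht ht'
      (fun h => htY (Finset.mem_filter.1 h).1) (fun h => htY' (Finset.mem_filter.1 h).1))
    intro y hy
    rw [Finset.mem_filter] at hy ⊢
    exact ⟨(Finset.mem_filter.1 hy.1).1, hy.2⟩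

theorem Piece.adj {k : ℕ} {A : List (ℕ × ℕ)} (h : Piece k A) {p q : ℕ} (hpq : adjL A p q) :
    p < 60 ∧ q < 60 ∧ p ≠ q ∧ (k ≤ p ∨ k ≤ q) := by
  rcases hpq with e | e <;> have := h.lt _ e <;> simp only at this <;> omega

theorem ext_inj {ψ : ℕ → ℕ} (hψ : Function.Injective ψ) {y : ℕ} (hy : ∀ x < 60, ψ x ≠ y) :
    ∃ φ : ℕ → ℕ, Function.Injective φ ∧ (∀ x < 60, φ x = ψ x) ∧ φ 60 = y := by
  set N := y + 1 + (Finset.range 60).sup ψ with hN
  have hb : ∀ x < 60, ψ x < N := fun x hx => by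
    have := Finset.le_sup (f := ψ) (Finset.mem_range.2 hx)
    omega
  refine ⟨fun x => if x < 60 then ψ x else if x = 60 then y else x + N, ?_, fun x hx => if_pos hx,
    by simp⟩
  intro a b hab
  simp only at hab
  split_ifs at hab with h1 h2 h3 h4 h5 h6 h7 h8
  · exact hψ hab
  · exact absurd hab (hy a h1)
  · have := hb a h1; omega
  · exact absurd hab.symm (hy b h5)
  · omega
  · omega
  · have := hb b h7; omega
  · omega
  · omega

end Pool.Agent.P.MP_5af56b_co
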