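import Mathlib

namespace Pool.Agent.P.MP_5af56b_co

/-- 2 terminals, 19 vertices, 38 edges -/
def p2_1 : List (ℕ × ℕ) :=
  [(0, 2), (0, 3), (0, 4), (1, 5), (1, 6), (2, 5), (2, 9), (2, 18), (3, 6), (3, 8), (3, 11),
   (4, 8), (4, 9), (4, 18), (5, 7), (5, 12), (6, 7), (6, 10), (7, 16), (7, 18), (8, 13), (8, 15),
   (9, 12), (9, 13), (10, 11), (10, 16), (10, 18), (11, 14), (11, 15), (12, 16), (12, 17),
   (13, 17), (13, 18), (14, 16), (14, 17), (14, 18), (15, 17), (15, 18)]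

/-- 2 terminals, 19 vertices, 38 edges -/
def p2_2 : List (ℕ × ℕ) :=
  [(0, 2), (0, 3), (0, 6), (1, 4), (1, 5), (2, 5), (2, 8), (2, 18), (3, 4), (3, 9), (3, 18),
   (4, 7), (4, 11), (5, 7), (5, 10), (6, 8), (6, 9), (6, 12), (7, 16), (7, 17), (8, 10), (8, 13),
   (9, 11), (9, 14), (10, 17), (10, 18), (11, 16), (11, 18), (12, 13), (12, 14), (12, 15),
   (13, 17), (13, 18), (14, 16), (14, 18), (15, 16), (15, 17), (15, 18)]

/-- 2 terminals, 19 vertices, 38 edges -/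
def p2_3 : List (ℕ × ℕ) :=
  [(0, 4), (0, 17), (0, 18), (1, 3), (1, 17), (1, 18), (2, 5), (2, 6), (2, 9), (2, 10), (2, 11),
   (2, 12), (3, 7), (3, 10), (3, 12), (4, 8), (4, 9), (4, 11), (5, 13), (5, 14), (5, 16), (6, 13),
   (6, 14), (6, 15), (7, 14), (7, 16), (7, 17), (8, 13), (8, 15), (8, 18), (9, 16), (9, 17),
   (10, 15), (10, 18), (11, 13), (11, 16), (12, 14), (12, 15)]

/-- 2 terminals, 20 vertices, 40 edges -/
def p2_4 : List (ℕ × ℕ) :=
  [(0, 2), (0, 3), (0, 19), (1, 4), (1, 19), (2, 5), (2, 6), (2, 18), (3, 5), (3, 7), (3, 9),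
   (4, 6), (4, 8), (4, 18), (5, 11), (5, 13), (6, 13), (6, 17), (7, 11), (7, 12), (7, 14),
   (8, 10), (8, 17), (8, 19), (9, 10), (9, 14), (9, 19), (10, 15), (10, 18), (11, 16), (11, 18),
   (12, 15), (12, 16), (12, 18), (13, 16), (13, 18), (14, 15), (14, 18), (15, 17), (16, 17)]

/-- 2 terminals, 20 vertices, 40 edges -/
def p2_5 : List (ℕ × ℕ) :=
  [(0, 2), (0, 3), (0, 19), (1, 4), (1, 19), (2, 5), (2, 9), (2, 18), (3, 5), (3, 6), (3, 7),
   (4, 6), (4, 8), (4, 18), (5, 11), (5, 13), (6, 10), (6, 14), (7, 10), (7, 11), (7, 12),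
   (8, 14), (8, 15), (8, 19), (9, 13), (9, 15), (9, 19), (10, 16), (10, 18), (11, 17), (11, 18),
   (12, 16), (12, 17), (12, 18), (13, 17), (13, 18), (14, 16), (14, 18), (15, 16), (15, 17)]

/-- 2 terminals, 20 vertices, 40 edges -/
def p2_6 : List (ℕ × ℕ) :=
  [(0, 3), (0, 4), (0, 18), (0, 19), (1, 18), (1, 19), (2, 3), (2, 13), (2, 14), (2, 15), (2, 16),
   (2, 17), (3, 9), (3, 10), (4, 8), (4, 9), (4, 11), (5, 6), (5, 7), (5, 10), (5, 12), (6, 13),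
   (6, 14), (6, 16), (7, 13), (7, 15), (7, 17), (8, 13), (8, 16), (8, 17), (9, 14), (9, 16),
   (10, 14), (10, 18), (11, 15), (11, 17), (11, 19), (12, 15), (12, 18), (12, 19)]

/-- 2 terminals, 21 vertices, 43 edges -/
def p2_7 : List (ℕ × ℕ) :=
  [(0, 2), (0, 3), (0, 6), (0, 7), (0, 8), (0, 9), (0, 10), (1, 4), (1, 5), (2, 4), (2, 13),
   (2, 15), (3, 5), (3, 12), (3, 14), (4, 11), (4, 20), (5, 11), (5, 20), (6, 14), (6, 16),
   (6, 17), (7, 15), (7, 16), (7, 18), (8, 16), (8, 17), (8, 18), (9, 13), (9, 15), (9, 18),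
   (10, 12), (10, 14), (10, 17), (11, 12), (11, 13), (12, 19), (13, 19), (14, 20), (15, 20),
   (16, 20), (17, 19), (18, 19)]

/-- 2 terminals, 21 vertices, 44 edges -/
def p2_8 : List (ℕ × ℕ) :=
  [(0, 3), (0, 19), (0, 20), (1, 2), (1, 4), (1, 5), (1, 19), (1, 20), (2, 6), (2, 9), (2, 10),
   (3, 8), (3, 9), (3, 11), (4, 7), (4, 8), (4, 18), (5, 6), (5, 7), (5, 18), (6, 14), (6, 15),
   (7, 15), (7, 16), (8, 16), (8, 19), (9, 13), (9, 20), (10, 12), (10, 13), (10, 14), (11, 12),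
   (11, 13), (11, 16), (12, 17), (12, 18), (13, 18), (14, 17), (14, 18), (15, 17), (15, 18),
   (16, 17), (18, 19), (18, 20)]

/-- 2 terminals, 21 vertices, 44 edges -/
def p2_9 : List (ℕ × ℕ) :=
  [(0, 6), (0, 19), (0, 20), (1, 2), (1, 3), (1, 4), (1, 5), (1, 7), (1, 8), (1, 19), (1, 20),
   (2, 13), (2, 14), (2, 16), (3, 14), (3, 15), (3, 16), (4, 12), (4, 15), (4, 16), (5, 10),
   (5, 13), (5, 14), (6, 9), (6, 10), (6, 13), (7, 12), (7, 15), (7, 18), (8, 9), (8, 12),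
   (8, 18), (9, 17), (9, 19), (10, 11), (10, 20), (11, 14), (11, 15), (11, 18), (12, 17),
   (13, 17), (16, 17), (18, 19), (18, 20)]

/-- 2 terminals, 22 vertices, 45 edges -/
def p2_10 : List (ℕ × ℕ) :=
  [(0, 7), (0, 20), (0, 21), (1, 2), (1, 3), (1, 4), (1, 5), (1, 6), (1, 20), (1, 21), (2, 8),
   (2, 13), (2, 16), (3, 9), (3, 14), (3, 17), (4, 9), (4, 17), (4, 18), (5, 8), (5, 16), (5, 18),
   (6, 16), (6, 17), (6, 18), (7, 10), (7, 11), (7, 15), (8, 10), (8, 15), (9, 11), (9, 15),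
   (10, 13), (10, 20), (11, 14), (11, 21), (12, 13), (12, 14), (12, 20), (12, 21), (13, 19),
   (14, 19), (15, 18), (16, 19), (17, 19)]

/-- 2 terminals, 23 vertices, 48 edges -/
def p2_11 : List (ℕ × ℕ) :=
  [(0, 2), (0, 3), (0, 4), (0, 5), (0, 21), (0, 22), (1, 21), (1, 22), (2, 8), (2, 11), (2, 20),
   (3, 6), (3, 7), (3, 20), (4, 6), (4, 10), (4, 20), (5, 7), (5, 8), (5, 9), (6, 13), (6, 17),
   (7, 13), (7, 14), (8, 15), (8, 16), (9, 12), (9, 14), (9, 15), (10, 16), (10, 17), (10, 22),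
   (11, 16), (11, 21), (11, 22), (12, 18), (12, 19), (12, 20), (13, 18), (13, 20), (14, 18),
   (14, 20), (15, 19), (15, 20), (16, 19), (17, 18), (17, 19), (20, 21)]

/-- 2 terminals, 23 vertices, 48 edges -/
def p2_12 : List (ℕ × ℕ) :=
  [(0, 2), (0, 3), (0, 4), (0, 5), (0, 21), (0, 22), (1, 21), (1, 22), (2, 8), (2, 11), (2, 20),
   (3, 6), (3, 7), (3, 20), (4, 6), (4, 8), (4, 20), (5, 7), (5, 9), (5, 10), (6, 14), (6, 18),
   (7, 14), (7, 15), (8, 16), (8, 18), (9, 12), (9, 13), (9, 15), (10, 13), (10, 16), (10, 22),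
   (11, 16), (11, 21), (11, 22), (12, 17), (12, 19), (12, 20), (13, 19), (13, 20), (14, 17),
   (14, 20), (15, 17), (15, 20), (16, 19), (17, 18), (18, 19), (20, 21)]

/-- 2 terminals, 23 vertices, 48 edges -/
def p2_13 : List (ℕ × ℕ) :=
  [(0, 2), (0, 3), (0, 4), (0, 5), (0, 6), (0, 7), (0, 8), (0, 21), (0, 22), (1, 21), (1, 22),
   (2, 10), (2, 16), (2, 20), (3, 15), (3, 16), (3, 20), (4, 10), (4, 12), (4, 20), (5, 9),
   (5, 14), (5, 17), (6, 14), (6, 15), (6, 16), (7, 14), (7, 15), (7, 17), (8, 9), (8, 11),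
   (8, 17), (9, 18), (9, 19), (10, 18), (10, 19), (11, 13), (11, 19), (11, 22), (12, 19),
   (12, 21), (12, 22), (13, 15), (13, 17), (13, 20), (14, 18), (16, 18), (20, 21)]

/-- 2 terminals, 23 vertices, 48 edges -/
def p2_14 : List (ℕ × ℕ) :=
  [(0, 2), (0, 3), (0, 4), (0, 5), (0, 6), (0, 7), (0, 8), (0, 21), (0, 22), (1, 21), (1, 22),
   (2, 10), (2, 18), (2, 20), (3, 10), (3, 16), (3, 18), (4, 9), (4, 15), (4, 17), (5, 9),
   (5, 11), (5, 15), (6, 14), (6, 16), (6, 18), (7, 14), (7, 15), (7, 17), (8, 14), (8, 16),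
   (8, 17), (9, 13), (9, 19), (10, 13), (10, 19), (11, 13), (11, 21), (11, 22), (12, 14),
   (12, 15), (12, 18), (12, 20), (13, 20), (16, 19), (17, 19), (20, 21), (20, 22)]

/-- 2 terminals, 23 vertices, 48 edges -/
def p2_15 : List (ℕ × ℕ) :=
  [(0, 2), (0, 3), (0, 4), (0, 5), (0, 6), (0, 7), (0, 8), (0, 21), (0, 22), (1, 21), (1, 22),
   (2, 15), (2, 16), (2, 20), (3, 11), (3, 16), (3, 20), (4, 10), (4, 12), (4, 20), (5, 9),
   (5, 10), (5, 17), (6, 9), (6, 14), (6, 17), (7, 14), (7, 15), (7, 16), (8, 14), (8, 15),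
   (8, 17), (9, 18), (9, 19), (10, 13), (10, 19), (11, 18), (11, 19), (11, 22), (12, 19),
   (12, 21), (12, 22), (13, 15), (13, 17), (13, 20), (14, 18), (16, 18), (20, 21)]

/-- 2 terminals, 23 vertices, 48 edges -/
def p2_16 : List (ℕ × ℕ) :=
  [(0, 2), (0, 3), (0, 4), (0, 5), (0, 6), (0, 7), (0, 8), (0, 21), (0, 22), (1, 21), (1, 22),
   (2, 15), (2, 18), (2, 20), (3, 10), (3, 14), (3, 16), (4, 9), (4, 10), (4, 16), (5, 9),
   (5, 11), (5, 15), (6, 14), (6, 17), (6, 18), (7, 15), (7, 17), (7, 18), (8, 14), (8, 16),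
   (8, 17), (9, 13), (9, 19), (10, 12), (10, 13), (11, 13), (11, 21), (11, 22), (12, 14),
   (12, 18), (12, 20), (13, 20), (15, 19), (16, 19), (17, 19), (20, 21), (20, 22)]

/-- 2 terminals, 23 vertices, 48 edges -/
def p2_17 : List (ℕ × ℕ) :=
  [(0, 3), (0, 22), (1, 4), (1, 5), (1, 6), (1, 7), (1, 22), (2, 3), (2, 4), (2, 5), (2, 6),
   (2, 18), (2, 19), (2, 20), (2, 21), (2, 22), (3, 13), (3, 17), (4, 14), (4, 16), (5, 15),
   (5, 16), (6, 15), (6, 17), (7, 12), (7, 13), (7, 14), (8, 9), (8, 13), (8, 15), (8, 17),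
   (9, 10), (9, 18), (9, 19), (10, 11), (10, 15), (10, 16), (11, 18), (11, 20), (11, 21),
   (12, 18), (12, 19), (12, 20), (13, 19), (14, 20), (14, 21), (16, 21), (17, 22)]

/-- 2 terminals, 23 vertices, 48 edges -/
def p2_18 : List (ℕ × ℕ) :=
  [(0, 3), (0, 22), (1, 4), (1, 5), (1, 6), (1, 7), (1, 22), (2, 3), (2, 4), (2, 5), (2, 6),
   (2, 18), (2, 19), (2, 20), (2, 21), (2, 22), (3, 14), (3, 17), (4, 13), (4, 15), (5, 14),
   (5, 15), (6, 16), (6, 17), (7, 12), (7, 13), (7, 16), (8, 9), (8, 14), (8, 16), (8, 17),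
   (9, 10), (9, 18), (9, 20), (10, 11), (10, 14), (10, 15), (11, 18), (11, 19), (11, 21),
   (12, 18), (12, 19), (12, 20), (13, 19), (13, 21), (15, 21), (16, 20), (17, 22)]

/-- 2 terminals, 23 vertices, 48 edges -/
def p2_19 : List (ℕ × ℕ) :=
  [(0, 3), (0, 22), (1, 4), (1, 5), (1, 6), (1, 7), (1, 8), (1, 9), (1, 10), (1, 22), (2, 3),
   (2, 4), (2, 5), (2, 6), (2, 21), (2, 22), (3, 13), (3, 20), (4, 13), (4, 19), (5, 17), (5, 19),
   (6, 15), (6, 20), (7, 14), (7, 15), (7, 18), (8, 14), (8, 16), (8, 18), (9, 16), (9, 17),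
   (9, 18), (10, 16), (10, 17), (10, 19), (11, 13), (11, 14), (11, 16), (11, 19), (12, 13),
   (12, 14), (12, 15), (12, 20), (15, 21), (17, 21), (18, 21), (20, 22)]

/-- 2 terminals, 23 vertices, 48 edges -/
def p2_20 : List (ℕ × ℕ) :=
  [(0, 3), (0, 22), (1, 4), (1, 5), (1, 6), (1, 7), (1, 8), (1, 9), (1, 10), (1, 22), (2, 3),
   (2, 4), (2, 5), (2, 6), (2, 21), (2, 22), (3, 13), (3, 20), (4, 14), (4, 19), (5, 17), (5, 19),
   (6, 14), (6, 20), (7, 13), (7, 15), (7, 18), (8, 15), (8, 16), (8, 18), (9, 16), (9, 17),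
   (9, 18), (10, 16), (10, 17), (10, 19), (11, 14), (11, 15), (11, 16), (11, 19), (12, 13),
   (12, 14), (12, 15), (12, 20), (13, 21), (17, 21), (18, 21), (20, 22)]

/-- 2 terminals, 23 vertices, 48 edges -/
def p2_21 : List (ℕ × ℕ) :=
  [(0, 5), (0, 22), (1, 2), (1, 3), (1, 4), (1, 6), (1, 22), (2, 7), (2, 8), (2, 10), (3, 8),
   (3, 9), (3, 21), (4, 7), (4, 11), (4, 21), (5, 11), (5, 20), (5, 21), (6, 9), (6, 20), (6, 21),
   (7, 13), (7, 18), (8, 16), (8, 17), (9, 12), (9, 16), (10, 17), (10, 18), (10, 19), (11, 13),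
   (11, 22), (12, 14), (12, 15), (12, 20), (13, 15), (13, 20), (14, 16), (14, 17), (14, 19),
   (15, 18), (15, 19), (16, 21), (17, 21), (18, 21), (19, 21), (20, 22)]

/-- 2 terminals, 23 vertices, 48 edges -/
def p2_22 : List (ℕ × ℕ) :=
  [(0, 5), (0, 22), (1, 2), (1, 3), (1, 4), (1, 6), (1, 22), (2, 9), (2, 11), (2, 21), (3, 7),
   (3, 8), (3, 21), (4, 8), (4, 9), (4, 21), (5, 11), (5, 20), (5, 21), (6, 7), (6, 10), (6, 20),
   (7, 17), (7, 19), (8, 15), (8, 17), (9, 12), (9, 15), (10, 13), (10, 18), (10, 19), (11, 12),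
   (11, 22), (12, 14), (12, 20), (13, 14), (13, 20), (13, 21), (14, 15), (14, 18), (15, 16),
   (16, 17), (16, 18), (16, 19), (17, 21), (18, 21), (19, 21), (20, 22)]

/-- 2 terminals, 23 vertices, 48 edges -/
def p2_23 : List (ℕ × ℕ) :=
  [(0, 5), (0, 22), (1, 2), (1, 3), (1, 4), (1, 6), (1, 7), (1, 8), (1, 9), (1, 22), (2, 11),
   (2, 15), (2, 16), (3, 15), (3, 16), (3, 17), (4, 15), (4, 17), (4, 18), (5, 12), (5, 20),
   (5, 21), (6, 11), (6, 16), (6, 20), (7, 10), (7, 18), (7, 21), (8, 17), (8, 18), (8, 21),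
   (9, 10), (9, 12), (9, 21), (10, 14), (10, 19), (11, 14), (11, 19), (12, 14), (12, 22),
   (13, 16), (13, 17), (13, 20), (13, 21), (14, 20), (15, 19), (18, 19), (20, 22)]

/-- 2 terminals, 23 vertices, 48 edges -/
def p2_24 : List (ℕ × ℕ) :=
  [(0, 6), (0, 22), (1, 2), (1, 3), (1, 4), (1, 5), (1, 7), (1, 8), (1, 9), (1, 22), (2, 10),
   (2, 11), (2, 18), (3, 16), (3, 17), (3, 19), (4, 16), (4, 18), (4, 19), (5, 11), (5, 18),
   (5, 19), (6, 12), (6, 20), (6, 21), (7, 17), (7, 20), (7, 21), (8, 10), (8, 12), (8, 21),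
   (9, 16), (9, 17), (9, 21), (10, 13), (10, 15), (11, 13), (11, 14), (12, 13), (12, 22),
   (13, 20), (14, 17), (14, 19), (14, 20), (15, 16), (15, 18), (15, 21), (20, 22)]

/-- 2 terminals, 24 vertices, 48 edges -/
def p2_25 : List (ℕ × ℕ) :=
  [(0, 3), (0, 23), (1, 2), (1, 23), (2, 5), (2, 21), (2, 22), (3, 4), (3, 20), (3, 22), (4, 6),
   (4, 14), (4, 23), (5, 6), (5, 12), (5, 23), (6, 10), (6, 11), (7, 13), (7, 15), (7, 16),
   (7, 17), (8, 13), (8, 17), (8, 18), (8, 19), (9, 12), (9, 15), (9, 17), (9, 18), (10, 13),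
   (10, 14), (10, 16), (11, 12), (11, 15), (11, 16), (12, 21), (13, 20), (14, 20), (14, 22),
   (15, 22), (16, 22), (17, 22), (18, 21), (18, 22), (19, 20), (19, 21), (19, 22)]

/-- 2 terminals, 24 vertices, 48 edges -/
def p2_26 : List (ℕ × ℕ) :=
  [(0, 3), (0, 23), (1, 2), (1, 23), (2, 6), (2, 21), (2, 22), (3, 7), (3, 20), (3, 22), (4, 6),
   (4, 8), (4, 21), (4, 22), (5, 14), (5, 20), (5, 21), (5, 22), (6, 12), (6, 23), (7, 12),
   (7, 13), (7, 23), (8, 12), (8, 15), (8, 17), (9, 13), (9, 16), (9, 18), (9, 19), (10, 12),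
   (10, 13), (10, 17), (10, 19), (11, 15), (11, 17), (11, 18), (11, 19), (13, 20), (14, 15),
   (14, 16), (14, 18), (15, 22), (16, 20), (16, 21), (17, 21), (18, 21), (19, 21)]

/-- 3 terminals, 18 vertices, 36 edges -/
def p3_1 : List (ℕ × ℕ) :=
  [(0, 5), (0, 15), (0, 16), (1, 3), (1, 15), (1, 17), (2, 4), (2, 16), (2, 17), (3, 7), (3, 9),
   (3, 14), (4, 6), (4, 8), (4, 14), (5, 8), (5, 9), (5, 13), (6, 10), (6, 11), (6, 17), (7, 10),
   (7, 12), (7, 17), (8, 11), (8, 16), (9, 12), (9, 15), (10, 13), (10, 14), (11, 13), (11, 14),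
   (12, 13), (12, 14), (14, 15), (14, 16)]

/-- 3 terminals, 19 vertices, 36 edges -/
def p3_2 : List (ℕ × ℕ) :=
  [(0, 5), (0, 7), (1, 4), (1, 18), (2, 6), (2, 18), (3, 7), (3, 8), (3, 9), (3, 12), (3, 14),
   (3, 15), (4, 7), (4, 11), (4, 15), (5, 6), (5, 10), (5, 13), (6, 12), (6, 14), (7, 10),
   (8, 13), (8, 16), (8, 17), (9, 10), (9, 13), (9, 17), (10, 15), (11, 16), (11, 17), (11, 18),
   (12, 16), (12, 18), (13, 14), (14, 16), (15, 17)]

/-- 3 terminals, 20 vertices, 40 edges -/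
def p3_3 : List (ℕ × ℕ) :=
  [(0, 3), (0, 17), (0, 18), (1, 4), (1, 5), (1, 18), (1, 19), (2, 17), (2, 19), (3, 13), (3, 14),
   (3, 16), (4, 11), (4, 12), (4, 16), (5, 11), (5, 15), (5, 16), (6, 7), (6, 8), (6, 9), (6, 10),
   (7, 11), (7, 12), (7, 14), (8, 13), (8, 14), (8, 16), (9, 13), (9, 15), (9, 16), (10, 11),
   (10, 15), (10, 16), (12, 17), (12, 19), (13, 18), (14, 17), (15, 18), (16, 19)]

/-- 3 terminals, 20 vertices, 40 edges -/
def p3_4 : List (ℕ × ℕ) :=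
  [(0, 3), (0, 17), (0, 19), (1, 4), (1, 5), (1, 18), (1, 19), (2, 17), (2, 18), (3, 6), (3, 8),
   (3, 15), (4, 7), (4, 13), (4, 14), (5, 6), (5, 13), (5, 16), (6, 11), (6, 19), (7, 9), (7, 10),
   (7, 12), (8, 9), (8, 11), (8, 12), (9, 15), (9, 16), (10, 14), (10, 15), (10, 16), (11, 13),
   (11, 16), (12, 13), (12, 16), (14, 17), (14, 18), (15, 17), (16, 18), (16, 19)]

/-- 3 terminals, 20 vertices, 40 edges -/
def p3_5 : List (ℕ × ℕ) :=
  [(0, 3), (0, 17), (0, 19), (1, 4), (1, 5), (1, 6), (1, 7), (1, 8), (1, 18), (1, 19), (2, 17),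
   (2, 18), (3, 14), (3, 15), (3, 16), (4, 10), (4, 13), (4, 15), (5, 11), (5, 12), (5, 16),
   (6, 10), (6, 14), (6, 15), (7, 11), (7, 14), (7, 16), (8, 10), (8, 11), (8, 14), (9, 10),
   (9, 11), (9, 12), (9, 13), (12, 18), (12, 19), (13, 17), (13, 18), (15, 17), (16, 19)]

/-- 3 terminals, 20 vertices, 40 edges -/
def p3_6 : List (ℕ × ℕ) :=
  [(0, 3), (0, 17), (0, 19), (1, 4), (1, 5), (1, 6), (1, 7), (1, 8), (1, 18), (1, 19), (2, 17),
   (2, 18), (3, 14), (3, 15), (3, 16), (4, 11), (4, 13), (4, 16), (5, 10), (5, 12), (5, 15),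
   (6, 10), (6, 14), (6, 15), (7, 11), (7, 14), (7, 16), (8, 10), (8, 11), (8, 14), (9, 10),
   (9, 11), (9, 12), (9, 13), (12, 17), (12, 18), (13, 17), (13, 19), (15, 18), (16, 19)]

/-- 3 terminals, 21 vertices, 44 edges -/
def p3_7 : List (ℕ × ℕ) :=
  [(0, 3), (0, 17), (0, 18), (1, 4), (1, 17), (1, 18), (1, 19), (1, 20), (2, 5), (2, 6), (2, 7),
   (2, 8), (2, 17), (2, 18), (2, 19), (2, 20), (3, 10), (3, 13), (3, 16), (4, 11), (4, 15),
   (4, 16), (5, 13), (5, 15), (5, 16), (6, 11), (6, 12), (6, 14), (7, 13), (7, 14), (7, 15),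
   (8, 11), (8, 14), (8, 15), (9, 10), (9, 12), (9, 13), (9, 14), (10, 17), (10, 19), (11, 20),
   (12, 19), (12, 20), (16, 18)]

/-- 3 terminals, 23 vertices, 48 edges -/
def p3_8 : List (ℕ × ℕ) :=
  [(0, 18), (0, 22), (1, 3), (1, 19), (1, 20), (1, 21), (1, 22), (2, 4), (2, 5), (2, 6), (2, 7),
   (2, 18), (2, 19), (2, 20), (2, 21), (3, 8), (3, 9), (3, 15), (4, 9), (4, 14), (4, 15), (5, 12),
   (5, 14), (5, 15), (6, 8), (6, 12), (6, 15), (7, 9), (7, 13), (7, 14), (8, 11), (8, 19),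
   (9, 20), (10, 12), (10, 13), (10, 14), (10, 17), (11, 12), (11, 16), (11, 17), (13, 20),
   (13, 21), (16, 18), (16, 19), (16, 22), (17, 18), (17, 21), (17, 22)]

/-- 3 terminals, 23 vertices, 48 edges -/
def p3_9 : List (ℕ × ℕ) :=
  [(0, 18), (0, 22), (1, 4), (1, 19), (1, 20), (1, 21), (1, 22), (2, 3), (2, 5), (2, 6), (2, 7),
   (2, 18), (2, 19), (2, 20), (2, 21), (3, 12), (3, 15), (3, 17), (4, 9), (4, 15), (4, 17),
   (5, 9), (5, 13), (5, 14), (6, 9), (6, 14), (6, 15), (7, 12), (7, 14), (7, 15), (8, 10),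
   (8, 12), (8, 13), (8, 14), (9, 20), (10, 11), (10, 19), (10, 21), (11, 12), (11, 16), (11, 17),
   (13, 20), (13, 21), (16, 18), (16, 19), (16, 22), (17, 18), (17, 22)]

/-- 3 terminals, 23 vertices, 48 edges -/
def p3_10 : List (ℕ × ℕ) :=
  [(0, 3), (0, 18), (0, 19), (0, 20), (0, 21), (0, 22), (1, 18), (1, 22), (2, 4), (2, 5), (2, 6),
   (2, 7), (2, 18), (2, 19), (2, 20), (2, 21), (3, 10), (3, 11), (3, 17), (4, 11), (4, 16),
   (4, 17), (5, 11), (5, 14), (5, 16), (6, 13), (6, 16), (6, 17), (7, 10), (7, 13), (7, 17),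
   (8, 12), (8, 13), (8, 14), (8, 16), (9, 10), (9, 12), (9, 13), (9, 15), (10, 20), (11, 21),
   (12, 19), (12, 22), (14, 19), (14, 21), (15, 18), (15, 20), (15, 22)]

/-- 3 terminals, 23 vertices, 48 edges -/
def p3_11 : List (ℕ × ℕ) :=
  [(0, 3), (0, 18), (0, 19), (0, 20), (0, 21), (0, 22), (1, 18), (1, 22), (2, 4), (2, 5), (2, 6),
   (2, 7), (2, 18), (2, 19), (2, 20), (2, 21), (3, 10), (3, 11), (3, 17), (4, 11), (4, 16),
   (4, 17), (5, 11), (5, 14), (5, 16), (6, 13), (6, 16), (6, 17), (7, 10), (7, 13), (7, 17),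
   (8, 12), (8, 13), (8, 14), (8, 16), (9, 10), (9, 12), (9, 13), (9, 15), (10, 22), (11, 21),
   (12, 19), (12, 20), (14, 19), (14, 21), (15, 18), (15, 20), (15, 22)]

/-- 3 terminals, 23 vertices, 48 edges -/
def p3_12 : List (ℕ × ℕ) :=
  [(0, 3), (0, 4), (0, 5), (0, 6), (0, 18), (0, 19), (0, 20), (0, 21), (0, 22), (1, 18), (1, 22),
   (2, 7), (2, 18), (2, 19), (2, 20), (2, 21), (3, 11), (3, 16), (3, 17), (4, 11), (4, 14),
   (4, 16), (5, 13), (5, 16), (5, 17), (6, 10), (6, 13), (6, 17), (7, 10), (7, 11), (7, 17),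
   (8, 12), (8, 13), (8, 14), (8, 16), (9, 10), (9, 12), (9, 13), (9, 15), (10, 20), (11, 21),
   (12, 19), (12, 22), (14, 19), (14, 21), (15, 18), (15, 20), (15, 22)]

/-- 3 terminals, 23 vertices, 48 edges -/
def p3_13 : List (ℕ × ℕ) :=
  [(0, 3), (0, 4), (0, 5), (0, 6), (0, 18), (0, 19), (0, 20), (0, 21), (0, 22), (1, 18), (1, 22),
   (2, 7), (2, 18), (2, 19), (2, 20), (2, 21), (3, 11), (3, 16), (3, 17), (4, 11), (4, 14),
   (4, 16), (5, 13), (5, 16), (5, 17), (6, 10), (6, 13), (6, 17), (7, 10), (7, 11), (7, 17),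
   (8, 12), (8, 13), (8, 14), (8, 16), (9, 10), (9, 12), (9, 13), (9, 15), (10, 22), (11, 21),
   (12, 19), (12, 20), (14, 19), (14, 21), (15, 18), (15, 20), (15, 22)]

/-- 3 terminals, 24 vertices, 48 edges -/
def p3_14 : List (ℕ × ℕ) :=
  [(0, 21), (0, 22), (1, 21), (1, 23), (2, 3), (2, 4), (2, 5), (2, 22), (2, 23), (3, 7), (3, 8),
   (3, 9), (4, 8), (4, 10), (4, 20), (5, 7), (5, 11), (5, 20), (6, 17), (6, 19), (6, 21), (6, 23),
   (7, 13), (7, 17), (8, 14), (8, 15), (9, 12), (9, 13), (9, 14), (10, 15), (10, 19), (10, 23),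
   (11, 17), (11, 21), (11, 22), (12, 16), (12, 18), (12, 20), (13, 18), (13, 20), (14, 16),
   (14, 20), (15, 16), (15, 20), (16, 19), (17, 18), (18, 19), (20, 22)]

/-- 3 terminals, 24 vertices, 48 edges -/
def p3_15 : List (ℕ × ℕ) :=
  [(0, 21), (0, 22), (1, 21), (1, 23), (2, 3), (2, 4), (2, 5), (2, 6), (2, 7), (2, 8), (2, 22),
   (2, 23), (3, 15), (3, 16), (3, 17), (4, 10), (4, 15), (4, 17), (5, 13), (5, 16), (5, 17),
   (6, 9), (6, 10), (6, 15), (7, 12), (7, 13), (7, 16), (8, 9), (8, 11), (8, 12), (9, 20),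
   (9, 23), (10, 18), (10, 22), (11, 19), (11, 21), (11, 23), (12, 19), (12, 20), (13, 18),
   (13, 19), (14, 18), (14, 19), (14, 21), (14, 22), (15, 20), (16, 20), (17, 18)]

/-- 3 terminals, 24 vertices, 48 edges -/
def p3_16 : List (ℕ × ℕ) :=
  [(0, 3), (0, 4), (0, 5), (0, 23), (1, 6), (1, 22), (2, 22), (2, 23), (3, 7), (3, 8), (3, 21),
   (4, 9), (4, 12), (4, 21), (5, 8), (5, 9), (5, 10), (6, 7), (6, 11), (6, 21), (7, 13), (7, 20),
   (8, 13), (8, 16), (9, 15), (9, 19), (10, 14), (10, 15), (10, 16), (11, 19), (11, 20), (11, 22),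
   (12, 19), (12, 22), (12, 23), (13, 18), (13, 21), (14, 17), (14, 18), (14, 21), (15, 17),
   (15, 21), (16, 18), (16, 21), (17, 19), (17, 20), (18, 20), (21, 23)]

/-- 3 terminals, 24 vertices, 48 edges -/
def p3_17 : List (ℕ × ℕ) :=
  [(0, 3), (0, 4), (0, 5), (0, 6), (0, 7), (0, 8), (0, 23), (1, 9), (1, 22), (2, 22), (2, 23),
   (3, 11), (3, 13), (3, 21), (4, 15), (4, 18), (4, 21), (5, 16), (5, 17), (5, 18), (6, 15),
   (6, 17), (6, 18), (7, 10), (7, 11), (7, 16), (8, 10), (8, 16), (8, 17), (9, 12), (9, 15),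
   (9, 21), (10, 19), (10, 20), (11, 14), (11, 19), (12, 19), (12, 20), (12, 22), (13, 19),
   (13, 22), (13, 23), (14, 16), (14, 18), (14, 21), (15, 20), (17, 20), (21, 23)]

/-- 4 terminals, 20 vertices, 40 edges -/
def p4_1 : List (ℕ × ℕ) :=
  [(0, 15), (0, 18), (0, 19), (1, 14), (1, 16), (1, 17), (1, 19), (2, 4), (2, 5), (2, 6), (2, 14),
   (2, 15), (2, 16), (2, 17), (3, 14), (3, 18), (4, 10), (4, 12), (4, 13), (5, 8), (5, 10),
   (5, 13), (6, 9), (6, 10), (6, 12), (7, 8), (7, 9), (7, 10), (7, 11), (8, 16), (8, 17), (9, 15),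
   (9, 18), (11, 14), (11, 17), (11, 18), (12, 15), (12, 19), (13, 16), (13, 19)]

/-- 4 terminals, 20 vertices, 40 edges -/
def p4_2 : List (ℕ × ℕ) :=
  [(0, 9), (0, 16), (0, 19), (1, 4), (1, 16), (1, 17), (1, 18), (2, 5), (2, 6), (2, 7), (2, 8),
   (2, 16), (2, 17), (2, 18), (3, 17), (3, 19), (4, 11), (4, 13), (4, 15), (5, 10), (5, 12),
   (5, 13), (6, 11), (6, 12), (6, 13), (7, 10), (7, 13), (7, 15), (8, 11), (8, 12), (8, 14),
   (9, 10), (9, 12), (9, 14), (10, 19), (11, 18), (14, 16), (14, 18), (15, 17), (15, 19)]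

/-- 4 terminals, 24 vertices, 48 edges -/
def p4_3 : List (ℕ × ℕ) :=
  [(0, 4), (0, 19), (0, 20), (0, 21), (1, 22), (1, 23), (2, 19), (2, 23), (3, 5), (3, 6), (3, 7),
   (3, 8), (3, 19), (3, 20), (3, 21), (3, 22), (4, 11), (4, 12), (4, 18), (5, 12), (5, 17),
   (5, 18), (6, 11), (6, 14), (6, 18), (7, 12), (7, 15), (7, 17), (8, 14), (8, 17), (8, 18),
   (9, 13), (9, 14), (9, 15), (9, 17), (10, 11), (10, 13), (10, 14), (10, 16), (11, 20), (12, 21),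
   (13, 22), (13, 23), (15, 21), (15, 22), (16, 19), (16, 20), (16, 23)]

/-- 4 terminals, 24 vertices, 48 edges -/
def p4_4 : List (ℕ × ℕ) :=
  [(0, 4), (0, 5), (0, 6), (0, 7), (0, 19), (0, 20), (0, 21), (1, 22), (1, 23), (2, 19), (2, 23),
   (3, 8), (3, 19), (3, 20), (3, 21), (3, 22), (4, 12), (4, 15), (4, 17), (5, 14), (5, 17),
   (5, 18), (6, 12), (6, 17), (6, 18), (7, 11), (7, 14), (7, 18), (8, 11), (8, 12), (8, 18),
   (9, 13), (9, 14), (9, 15), (9, 17), (10, 11), (10, 13), (10, 14), (10, 16), (11, 20), (12, 21),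
   (13, 22), (13, 23), (15, 21), (15, 22), (16, 19), (16, 20), (16, 23)]

/-- The lists of `k`-terminal pieces, `k = 2, 3, 4`. -/
def pieces : ℕ → List (List (ℕ × ℕ))
  | 2 => [p2_1, p2_2, p2_3, p2_4, p2_5, p2_6, p2_7, p2_8, p2_9, p2_10, p2_11, p2_12, p2_13, p2_14,
      p2_15, p2_16, p2_17, p2_18, p2_19, p2_20, p2_21, p2_22, p2_23, p2_24, p2_25, p2_26]
  | 3 => [p3_1, p3_2, p3_3, p3_4, p3_5, p3_6, p3_7, p3_8, p3_9, p3_10, p3_11, p3_12, p3_13, p3_14,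
      p3_15, p3_16, p3_17]
  | 4 => [p4_1, p4_2, p4_3, p4_4]
  | _ => []

end Pool.Agent.P.MP_5af56b_co
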